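import Mathlib

/-!
# The frame of a plank in either order of the coordinates: algebra
-/

set_option autoImplicit false

namespace Pool.S6C.Nst

/-- The frames `(f; s₁, t₁)` of the plank and `(al; s, t)` are near. -/
structure NearFr (P μ E f s₁ t₁ s t al : ℝ) : Prop where
  sb : |s₁| ≤ 6
  tb : |t₁| ≤ 22
  af : |al - f| ≤ P ^ 5 / μ
  ds : |s - s₁| ≤ P ^ 7 * μ * E
  dt : |(t - t₁) + (s - s₁) * al| ≤ P ^ 12 * E

section

variable {P μ E c s c' s' au aN al e' : ℝ}

theorem pow_le {P : ℝ} (hP : 8192 ≤ P) {a b : ℕ} (h : a ≤ b) : P ^ a ≤ P ^ b :=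
  pow_le_pow_right₀ (by linarith) h

theorem mul_pow_le {P : ℝ} (hP : 8192 ≤ P) {a : ℕ} {K : ℝ} (h : K ≤ 8192) :
    K * P ^ a ≤ P ^ (a + 1) := by
  rw [pow_succ]
  have : 0 < P ^ a := by positivity
  nlinarith

/-- The same order of the coordinates. -/
theorem near_same (hP : 8192 ≤ P) (hμ : 1 ≤ μ) (hE : 0 < E) (hc' : |c'| ≤ 4) (hs' : |s'| ≤ 4)
    (h1 : |c + s * au + aN| ≤ P ^ 4 * E) (h2 : |c' + s' * au + aN| ≤ P ^ 4 * E)
    (h3 : |al - au| ≤ P ^ 4 / μ) (h4 : |e' - au| ≤ P ^ 4 / μ)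
    (h5 : |s' - s| ≤ P ^ 6 * μ * E) : NearFr P μ E e' (-s') (-c') (-s) (-c) al := by
  have hP0 : 0 < P := by linarith
  have hμ0 : 0 < μ := by linarith
  refine ⟨?_, ?_, ?_, ?_, ?_⟩
  · rw [abs_neg]; linarith
  · rw [abs_neg]; linarith
  · have e1 : al - e' = (al - au) - (e' - au) := by ring
    rw [e1]
    have t1 := abs_sub (al - au) (e' - au)
    have t2 : P ^ 4 / μ + P ^ 4 / μ ≤ P ^ 5 / μ := by
      rw [← add_div]
      refine div_le_div_of_nonneg_right ?_ hμ0.le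
      have : 2 * P ^ 4 ≤ P ^ 5 := mul_pow_le (a := 4) hP (by norm_num)
      linarith
    linarith
  · have e1 : -s - -s' = s' - s := by ring
    rw [e1]
    refine h5.trans ?_
    have := pow_le hP (a := 6) (b := 7) (by norm_num)
    have : P ^ 6 * (μ * E) ≤ P ^ 7 * (μ * E) := mul_le_mul_of_nonneg_right this (by positivity)
    linarith
  · have e1 : -c - -c' + (-s - -s') * al = ((c' + s' * au + aN) - (c + s * au + aN)) +
        (s' - s) * (al - au) := by ring
    rw [e1]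
    have t1 := abs_add_le ((c' + s' * au + aN) - (c + s * au + aN)) ((s' - s) * (al - au))
    have t2 := abs_sub (c' + s' * au + aN) (c + s * au + aN)
    have t3 : |(s' - s) * (al - au)| ≤ P ^ 6 * μ * E * (P ^ 4 / μ) := by
      rw [abs_mul]
      exact mul_le_mul h5 h3 (abs_nonneg _) (by positivity)
    have e2 : P ^ 6 * μ * E * (P ^ 4 / μ) = P ^ 10 * E := by
      field_simp
    rw [e2] at t3
    have k1 : 2 * P ^ 11 ≤ P ^ 12 := mul_pow_le (a := 11) hP (by norm_num)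
    have k2 := pow_le hP (a := 4) (b := 10) (by norm_num)
    have k3 : 3 * P ^ 10 ≤ P ^ 11 := mul_pow_le (a := 10) hP (by norm_num)
    have k4 := pow_le hP (a := 11) (b := 12) (by norm_num)
    have k5 : (P ^ 4 + P ^ 4 + P ^ 10) * E ≤ P ^ 12 * E :=
      mul_le_mul_of_nonneg_right (by linarith) hE.le
    linarith

/-- The other order of the coordinates. -/
theorem near_swap (hP : 8192 ≤ P) (hμ : 1 ≤ μ) (hE : 0 < E) (hroom : P ^ 20 * μ * E ≤ 1)
    (hs : |s| ≤ 4) (hc' : |c'| ≤ 4) (hs' : |s'| ≤ 4)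
    (h1 : |c + s * au + aN| ≤ P ^ 4 * E) (h2 : |c' + s' * aN + au| ≤ P ^ 4 * E)
    (h3 : |al - au| ≤ P ^ 4 / μ) (h4 : |e' - aN| ≤ P ^ 4 / μ)
    (h5 : |1 - s' * s| ≤ P ^ 6 * μ * E) :
    3 / 16 ≤ |s'| ∧
      NearFr P μ E (-(c' + s' * e')) (-(1 / s')) (-(c' / s')) (-s) (-c) al := by
  have hP0 : 0 < P := by linarith
  have hμ0 : 0 < μ := by linarith
  have hsm : P ^ 6 * μ * E ≤ 1 / 4 := by
    have k1 : 4 * P ^ 6 ≤ P ^ 7 := mul_pow_le hP (by norm_num)
    have k2 := pow_le hP (a := 7) (b := 20) (by norm_num)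
    have : 4 * P ^ 6 * (μ * E) ≤ P ^ 20 * (μ * E) :=
      mul_le_mul_of_nonneg_right (by linarith) (by positivity)
    linarith
  have hs1 : 3 / 16 ≤ |s'| := by
    have k1 : |s' * s| ≤ |s'| * 4 := by
      rw [abs_mul]
      exact mul_le_mul_of_nonneg_left hs (abs_nonneg _)
    have k2 := abs_sub_abs_le_abs_sub 1 (s' * s)
    rw [abs_one] at k2
    linarith
  have hs0 : s' ≠ 0 := by
    intro h
    rw [h, abs_zero] at hs1
    norm_num at hs1
  have hr : |1 / s'| ≤ 16 / 3 := by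
    rw [abs_div, abs_one, div_le_iff₀ (by linarith)]
    linarith
  refine ⟨hs1, ?_, ?_, ?_, ?_, ?_⟩
  · rw [abs_neg]; linarith
  · rw [abs_neg]
    have e1 : c' / s' = c' * (1 / s') := by ring
    rw [e1, abs_mul]
    have : |c'| * |1 / s'| ≤ 4 * (16 / 3) := mul_le_mul hc' hr (abs_nonneg _) (by norm_num)
    linarith
  · have e1 : al - -(c' + s' * e') = (al - au) + (c' + s' * aN + au) + s' * (e' - aN) := by ring
    rw [e1]
    have t1 := abs_add_le ((al - au) + (c' + s' * aN + au)) (s' * (e' - aN))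
    have t2 := abs_add_le (al - au) (c' + s' * aN + au)
    have t3 : |s' * (e' - aN)| ≤ 4 * (P ^ 4 / μ) := by
      rw [abs_mul]
      exact mul_le_mul hs' h4 (abs_nonneg _) (by norm_num)
    have t4 : P ^ 4 * E ≤ P ^ 4 / μ := by
      rw [le_div_iff₀ hμ0]
      have k2 := pow_le hP (a := 4) (b := 20) (by norm_num)
      have k3 : P ^ 4 * (μ * E) ≤ P ^ 20 * (μ * E) :=
        mul_le_mul_of_nonneg_right k2 (by positivity)
      have k4 : (1 : ℝ) ≤ P ^ 4 := one_le_pow₀ (by linarith)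
      linarith
    have t5 : 6 * (P ^ 4 / μ) ≤ P ^ 5 / μ := by
      have e2 : 6 * (P ^ 4 / μ) = 6 * P ^ 4 / μ := by ring
      rw [e2]
      exact div_le_div_of_nonneg_right (mul_pow_le hP (by norm_num)) hμ0.le
    linarith
  · have e1 : -s - -(1 / s') = (1 / s') * (1 - s' * s) := by
      field_simp
      ring
    rw [e1, abs_mul]
    have t1 : |1 / s'| * |1 - s' * s| ≤ 16 / 3 * (P ^ 6 * μ * E) :=
      mul_le_mul hr h5 (abs_nonneg _) (by norm_num)
    have k1 : 16 / 3 * P ^ 6 ≤ P ^ 7 := mul_pow_le hP (by norm_num)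
    have k2 : 16 / 3 * P ^ 6 * (μ * E) ≤ P ^ 7 * (μ * E) :=
      mul_le_mul_of_nonneg_right k1 (by positivity)
    linarith
  · have e1 : -c - -(c' / s') + (-s - -(1 / s')) * al =
        ((1 / s') * (c' + s' * aN + au) - (c + s * au + aN)) +
        ((1 / s') * (1 - s' * s)) * (al - au) := by
      field_simp
      ring
    rw [e1]
    have t1 := abs_add_le ((1 / s') * (c' + s' * aN + au) - (c + s * au + aN))
      (((1 / s') * (1 - s' * s)) * (al - au))
    have t2 := abs_sub ((1 / s') * (c' + s' * aN + au)) (c + s * au + aN)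
    have t3 : |(1 / s') * (c' + s' * aN + au)| ≤ 16 / 3 * (P ^ 4 * E) := by
      rw [abs_mul]
      exact mul_le_mul hr h2 (abs_nonneg _) (by norm_num)
    have t4 : |((1 / s') * (1 - s' * s)) * (al - au)| ≤
        16 / 3 * (P ^ 6 * μ * E) * (P ^ 4 / μ) := by
      rw [abs_mul, abs_mul]
      exact mul_le_mul (mul_le_mul hr h5 (abs_nonneg _) (by norm_num)) h3 (abs_nonneg _)
        (by positivity)
    have e2 : 16 / 3 * (P ^ 6 * μ * E) * (P ^ 4 / μ) = 16 / 3 * (P ^ 10 * E) := by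
      field_simp
    rw [e2] at t4
    have k2 := pow_le hP (a := 4) (b := 10) (by norm_num)
    have k3 : 12 * P ^ 10 ≤ P ^ 11 := mul_pow_le (a := 10) hP (by norm_num)
    have k4 := pow_le hP (a := 11) (b := 12) (by norm_num)
    have k5 : (16 / 3 * P ^ 4 + P ^ 4 + 16 / 3 * P ^ 10) * E ≤ P ^ 12 * E := by
      refine mul_le_mul_of_nonneg_right ?_ hE.le
      have : 0 < P ^ 10 := by positivity
      linarith
    linarith

/-- The position in the frame, same order. -/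
theorem pos_swap {d0 d1 d2 : ℝ} {a b : ℝ} (hs' : |s'| ≤ 4) (hs1 : 3 / 16 ≤ |s'|)
    (h1 : |d2 - e' * d0| ≤ a) (h2 : |c' * d0 + s' * d2 + d1| ≤ b) (hab : b ≤ a) :
    |d1 - -(c' + s' * e') * d0| ≤ 5 * a ∧ |d2 - -(1 / s') * d1 - -(c' / s') * d0| ≤ 16 / 3 * b := by
  have hs0 : s' ≠ 0 := by
    intro h
    rw [h, abs_zero] at hs1
    norm_num at hs1
  have hr : |1 / s'| ≤ 16 / 3 := by
    rw [abs_div, abs_one, div_le_iff₀ (by linarith)]
    linarith
  constructor
  · have e1 : d1 - -(c' + s' * e') * d0 = (c' * d0 + s' * d2 + d1) - s' * (d2 - e' * d0) := by ring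
    rw [e1]
    have t1 := abs_sub (c' * d0 + s' * d2 + d1) (s' * (d2 - e' * d0))
    have t2 : |s' * (d2 - e' * d0)| ≤ 4 * a := by
      rw [abs_mul]
      exact mul_le_mul hs' h1 (abs_nonneg _) (by norm_num)
    linarith
  · have e1 : d2 - -(1 / s') * d1 - -(c' / s') * d0 =
        (1 / s') * (c' * d0 + s' * d2 + d1) := by
      field_simp
      ring
    rw [e1, abs_mul]
    exact mul_le_mul hr h2 (abs_nonneg _) (by norm_num)

end

end Pool.S6C.Nst
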