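import Pool.Agent.H62.S6.Cmp
import Pool.Agent.H80.S6C.UvcC
import Pool.Agent.H40.S6.Ev

/-!
# Comparison of the normals of two planks, for nearly all samples

Only the velocities matter: `c`, `s` are the coefficients of the normal of a plank, they are
functions of the exact point and of the line with its window, and the velocities of a fan have the
same normal component, up to `2 ε`. If the directions turn on the windows, two such normals agree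
for nearly all samples, in either order of the coordinates.
-/

set_option autoImplicit false

namespace Pool.S6C.Nst

open Finset Real
open Pool.Agent.H49.Ent Pool.Agent.H32.Dense Pool.STK Pool.KA Pool.KSAT Pool.K2S Pool.PB Pool.KS6
open Pool.S6C.Uvc

/-- **The normals of planks**, as seen by the velocities. -/
structure VP {J : ℕ} (F : Fam 3 J) (A : F.Ω → Prop) (i₀ iu iN : Fin 3) (w : ℕ) (ε : ℝ)
    (c s : F.Ω → ℝ) : Prop where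
  hi : ∀ j : Fin 3, j = i₀ ∨ j = iu ∨ j = iN
  sb : ∀ ω, A ω → |s ω| ≤ 4
  vn : ∀ ω ω', A ω → A ω' → Fam.pt F ω = Fam.pt F ω' →
    |fn i₀ iu iN (c ω) (s ω) (F.d ω) - fn i₀ iu iN (c ω) (s ω) (F.d ω')| ≤ 2 * ε
  cp : ∀ ω ω', A ω → A ω' → Fam.pt F ω = Fam.pt F ω' → c ω = c ω' ∧ s ω = s ω'
  cs : ∀ ω ω', A ω → A ω' → slam F w ω = slam F w ω' → c ω = c ω' ∧ s ω = s ω'

section one

variable {J : ℕ} {F : Fam 3 J} {A : F.Ω → Prop} {i₀ iu iN : Fin 3} {w : ℕ} {ε : ℝ}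
  {c s : F.Ω → ℝ}

/-- The direction of a pair of velocities of a fan. -/
noncomputable def dq (F : Fam 3 J) (i₀ j : Fin 3) (ωa ωb : F.Ω) : ℝ :=
  (F.d ωa j - F.d ωb j) / (F.d ωa i₀ - F.d ωb i₀)

theorem VP.pair (h : VP F A i₀ iu iN w ε c s) {ω ωa ωb : F.Ω} (hω : A ω) (ha : A ωa) (hb : A ωb)
    (pa : Fam.pt F ωa = Fam.pt F ω) (pb : Fam.pt F ωb = Fam.pt F ω) {q : ℕ}
    (hq : 1 / 2 ^ (q + 1) ≤ |F.d ωa i₀ - F.d ωb i₀|) :
    |c ω + s ω * dq F i₀ iu ωa ωb + dq F i₀ iN ωa ωb| ≤ 4 * 2 ^ q * ε := by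
  have hq0 : (0 : ℝ) < 1 / 2 ^ (q + 1) := by positivity
  have hd : 0 < |F.d ωa i₀ - F.d ωb i₀| := lt_of_lt_of_le hq0 hq
  have hd0 : F.d ωa i₀ - F.d ωb i₀ ≠ 0 := abs_pos.mp hd
  have e0 := h.cp ωa ω ha hω pa
  have k := h.vn ωa ωb ha hb (pa.trans pb.symm)
  rw [e0.1, e0.2] at k
  have hε : 0 ≤ ε := by
    have := (abs_nonneg _).trans k
    linarith
  have e1 : c ω + s ω * dq F i₀ iu ωa ωb + dq F i₀ iN ωa ωb =
      (fn i₀ iu iN (c ω) (s ω) (F.d ωa) - fn i₀ iu iN (c ω) (s ω) (F.d ωb)) /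
        (F.d ωa i₀ - F.d ωb i₀) := by
    unfold fn dq
    field_simp
    ring
  rw [e1, abs_div, div_le_iff₀ hd]
  have e2 : 4 * 2 ^ q * ε * (1 / 2 ^ (q + 1)) = 2 * ε := by
    rw [pow_succ]
    field_simp
    ring
  have t4 : 4 * 2 ^ q * ε * (1 / 2 ^ (q + 1)) ≤ 4 * 2 ^ q * ε * |F.d ωa i₀ - F.d ωb i₀| :=
    mul_le_mul_of_nonneg_left hq (by positivity)
  linarith

end one

/-- The normals agree, in one of the two orders of the coordinates. -/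
def Clo (iu iN iu' iN' : Fin 3) (K s s' : ℝ) : Prop :=
  (iu' = iu ∧ iN' = iN ∧ |s' - s| ≤ K) ∨ (iu' = iN ∧ iN' = iu ∧ |1 - s' * s| ≤ K)

/-- An event of positive probability is not empty. -/
theorem exists_of_pos {Ω : Type} [Fintype Ω] {p : Ω → ℝ} {B : Ω → Prop} (h : 0 < Pe p B) :
    ∃ ω, B ω := by
  by_contra hcon
  push Not at hcon
  rw [Pe_eq] at h
  refine absurd h (not_lt.2 (le_of_eq ?_))
  exact Finset.sum_eq_zero fun ω _ => if_neg (hcon ω)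

/-- An event and a part. -/
theorem Pe_two {Ω : Type} [Fintype Ω] (p : Ω → ℝ) (B N : Ω → Prop) :
    Pe p B = Pe p (fun ω => B ω ∧ N ω) + Pe p (fun ω => B ω ∧ ¬ N ω) := by
  classical
  simp_rw [Pe_eq]
  rw [← Finset.sum_add_distrib]
  refine Finset.sum_congr rfl fun ω _ => ?_
  by_cases h2 : N ω <;> by_cases h3 : B ω <;> simp [h2, h3]

/-- **Comparison of two normals**: the directions turn on the windows `v`. -/
theorem cmp_most {S : PCl 3} {a R h₁ : ℝ} {i₀ : Fin 3} {c₀ s₂ : ℝ} {r : ℝ → ℝ} {D : Set ℝ}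
    {σ : ℝ → Row} (hC : Cs S a R h₁ i₀ c₀ s₂ r D σ) (v : ℚ) (h0 : 0 ≤ v) (h1 : v ≤ 1)
    {h x ϖ : ℝ} (hh : 0 < h) (hx : 0 < x) (hϖ : 0 < ϖ) (hr : (σ 1).rot v + h ≤ 1) :
    Clp S (fun J F A => ∀ q l lp : ℕ, q ≤ J → x * J ≤ q → q + 2 ≤ ⌊h₁ * J⌋₊ →
      l = ⌊((σ 1).rot v + h) * J⌋₊ → lp = ⌊((σ 1).pi - h) * J⌋₊ → l + q + 5 ≤ lp →
      ∀ (iu iN iu' iN' : Fin 3) (ε ε' : ℝ) (c s c' s' : F.Ω → ℝ),
      VP F A i₀ iu iN ⌊(v : ℝ) * J⌋₊ ε c s → VP F A i₀ iu' iN' ⌊(v : ℝ) * J⌋₊ ε' c' s' →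
      (1 - ϖ) * Pe F.p A ≤ Pe F.p (fun ω => Spd F i₀ q A ω ∧
        Clo iu iN iu' iN' (800 * 2 ^ q * 2 ^ l * (ε + ε')) (s ω) (s' ω))) := by
  classical
  have hR1 := hC.row 1 one_pos le_rfl hC.D1
  obtain ⟨τ, hτ, J₁, htn⟩ := turn_part hR1 v h0 h1 hh hr
  have ct : Clp S (fun J F G => 0 < Pe F.p G ∧ ∀ e n : (Fin 3 → ℤ) × (ℕ × F.ζ) → Fin 3 → ℝ,
      OnL i₀ (1 / 2 ^ ⌊((σ 1).rot v + h) * J⌋₊) (Fam.pt F) F.d G e n →
      ∃ B : F.Ω → Prop, Sub B G ∧ Pe F.p G ≤ 2 * Pe F.p B ∧ ∀ ω, B ω → ∃ ω', G ω' ∧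
        slam F ⌊(v : ℝ) * J⌋₊ ω' = slam F ⌊(v : ℝ) * J⌋₊ ω ∧
        ∃ j, 1 / 2 ^ ⌊((σ 1).rot v + h) * J⌋₊ <
          |e (Fam.pt F ω) j - e (Fam.pt F ω') j|) :=
    Clp.base τ hτ J₁ fun J hJ F A hS =>
      ⟨lt_of_lt_of_le (Real.exp_pos _) (hC.st _ _ _ _ hS).2.2.2, htn J hJ F A hS⟩
  have cs := spread_big hC.a1 hC.R0 hC.ub hC.st hC.lb hx (half_pos hϖ)
  have cp := hR1.pi.1 h hh
  refine Clp.mono (J₂ := 0) (((ct.ev (half_pos hϖ)).and cs).and cp) ?_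
  rintro J - F A ⟨⟨d1, d2⟩, d3⟩ q l lp hq hxq hq2 hl hlp hllp iu iN iu' iN' ε ε' c s c' s' hV hV'
  have hL : ∃ e n : (Fin 3 → ℤ) × (ℕ × F.ζ) → Fin 3 → ℝ,
      OnL i₀ (1 / 2 ^ lp) (Fam.pt F) F.d A e n := by
    rcases d3 with d3 | ⟨-, e, n, hL⟩
    · exfalso
      have : lp = 0 := by
        rw [hlp]
        exact Nat.floor_of_nonpos (mul_nonpos_of_nonpos_of_nonneg d3 (Nat.cast_nonneg J))
      omega
    · rw [ptq_one F] at hL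
      exact ⟨e, n, by rw [hlp]; exact hL⟩
  obtain ⟨e, n, hL⟩ := hL
  obtain ⟨Sp, hSp⟩ : ∃ Sp, Sp = Spd F i₀ q A := ⟨_, rfl⟩
  obtain ⟨Cl, hCl⟩ : ∃ Cl : F.Ω → Prop, Cl = fun ω =>
    Clo iu iN iu' iN' (800 * 2 ^ q * 2 ^ l * (ε + ε')) (s ω) (s' ω) := ⟨_, rfl⟩
  have hadd := Pe_two F.p Sp Cl
  have hgoal : (fun ω => Spd F i₀ q A ω ∧
      Clo iu iN iu' iN' (800 * 2 ^ q * 2 ^ l * (ε + ε')) (s ω) (s' ω)) =
      fun ω => Sp ω ∧ Cl ω := by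
    rw [hSp, hCl]
  rw [hgoal]
  have hSpP := d2 q hq hxq hq2
  rw [← hSp] at hSpP
  by_cases hbig : ϖ / 2 * Pe F.p A ≤ Pe F.p (fun ω => Sp ω ∧ ¬ Cl ω)
  · exfalso
    have hsub : Sub (fun ω => Sp ω ∧ ¬ Cl ω) A := fun ω hω => by
      have := hω.1
      rw [hSp] at this
      exact this.1
    obtain ⟨hN, hN2⟩ := d1 _ hsub hbig
    have i1 : (1 : ℝ) / 2 ^ lp ≤ 1 / 2 ^ l := inv_mono (by omega)
    obtain ⟨B, hB, hPB, htr⟩ := hN2 e n (by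
      rw [← hl]
      exact (hL.sub hsub).mono i1)
    obtain ⟨ω, hω⟩ := exists_of_pos (p := F.p) (B := B) (by linarith)
    obtain ⟨ω₁, hω₁, hsl, j, hj⟩ := htr ω hω
    rw [← hl] at hj
    have b0 := hB ω hω
    have s0 := b0.1
    have s1 := hω₁.1
    rw [hSp] at s0 s1
    obtain ⟨A0, ωa, ωb, ha, hb, pa, pb, hab⟩ := s0
    obtain ⟨A1, ωc, ωd, hc, hd, pc, pd, hcd⟩ := s1
    have y1 := hV.cs ω₁ ω A1 A0 hsl
    have y2 := hV'.cs ω₁ ω A1 A0 hsl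
    have p1 := hV.pair A0 ha hb pa pb hab
    have p2 := hV.pair A1 hc hd pc pd hcd
    rw [y1.1, y1.2] at p2
    have p4 := hV'.pair A0 ha hb pa pb hab
    have p5 := hV'.pair A1 hc hd pc pd hcd
    rw [y2.1, y2.2] at p5
    have La : ∀ j, |F.d ωa j - e (Fam.pt F ω) j * F.d ωa i₀ - n (Fam.pt F ω) j| ≤
        1 / 2 ^ lp := by
      intro j
      have := hL _ ha j
      rwa [pa] at this
    have Lb : ∀ j, |F.d ωb j - e (Fam.pt F ω) j * F.d ωb i₀ - n (Fam.pt F ω) j| ≤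
        1 / 2 ^ lp := by
      intro j
      have := hL _ hb j
      rwa [pb] at this
    have Lc : ∀ j, |F.d ωc j - e (Fam.pt F ω₁) j * F.d ωc i₀ - n (Fam.pt F ω₁) j| ≤
        1 / 2 ^ lp := by
      intro j
      have := hL _ hc j
      rwa [pc] at this
    have Ld : ∀ j, |F.d ωd j - e (Fam.pt F ω₁) j * F.d ωd i₀ - n (Fam.pt F ω₁) j| ≤
        1 / 2 ^ lp := by
      intro j
      have := hL _ hd j
      rwa [pd] at this
    have p3 := ind_pts hV.hi hllp La Lb Lc Ld hab hcd hj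
    have hl0 : (0 : ℝ) < 1 / 2 ^ (l + 1) := by positivity
    have hκ : 100 * ((4 * 2 ^ q * ε + 4 * 2 ^ q * ε') / (1 / 2 ^ (l + 1))) =
        800 * 2 ^ q * 2 ^ l * (ε + ε') := by
      rw [pow_succ]
      field_simp
      ring
    refine b0.2 ?_
    rw [hCl]
    rw [← hκ]
    rcases Pool.S6F.ord_cases hV.hi hV'.hi with ⟨u1, u2⟩ | ⟨u1, u2⟩
    · left
      subst u1 u2
      exact ⟨rfl, rfl, ind_alg p1 p2 p4 p5 (hV.sb _ A0) (hV'.sb _ A0) hl0 p3⟩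
    · right
      subst u1 u2
      exact ⟨rfl, rfl, ind_alg2 p1 p2 p4 p5 (hV.sb _ A0) (hV'.sb _ A0) hl0 p3⟩
  · push Not at hbig
    have e1 : (1 - ϖ) * Pe F.p A = (1 - ϖ / 2) * Pe F.p A - ϖ / 2 * Pe F.p A := by ring
    linarith

end Pool.S6C.Nst
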