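import Pool.Agent.H16.S6.Alg
import Pool.Agent.H23.S6E.Vdf2
import Pool.Agent.H77.S6.LAB

/-!
# The deficit beyond a natural box, from the entropy of the positions given a finer plank

`z` is a plank which contains the position; in the chart `ς` it has the frame `(f z, s₁ z, t₁ z)`.
The frame of the box is `(al, s, t)`, the slope rounded to `m` digits.
-/

set_option autoImplicit false

namespace Pool.S6C.Nst

open Finset Real
open Pool.Agent.H49.Ent Pool.Agent.H32.Dense Pool.STK Pool.KA Pool.K2S Pool.KS6 Vd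

variable {J : ℕ}

/-- The position relative to the plank. -/
noncomputable def dx (F : Fam 3 J) (z : Pln) (i : Fin 3) (ω : F.Ω) : ℝ :=
  F.x ω i - (z.xb i + F.t ω * z.db i)

/-- The plank contains the position. -/
structure PosB (F : Fam 3 J) (ς : Fin 3 → Fin 3) (w lam N : ℕ) (z : Pln) (f s₁ t₁ : ℝ)
    (ω : F.Ω) : Prop where
  pe : |dx F z (ς 0) ω| ≤ 2 / 2 ^ w
  pu : |dx F z (ς 1) ω - f * dx F z (ς 0) ω| ≤ 12 / 2 ^ (w + lam)
  pn : |dx F z (ς 2) ω - s₁ * dx F z (ς 1) ω - t₁ * dx F z (ς 0) ω| ≤ 12 / 2 ^ N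

theorem log_le_M {P x : ℝ} {M n : ℕ} (hPM : P = 2 ^ M) (hx : 0 < x) (h : x ≤ P ^ n) :
    Real.log x ≤ n * M * Real.log 2 := by
  have h1 : P ^ n = 2 ^ (n * M) := by rw [hPM, ← pow_mul, mul_comm]
  rw [h1] at h
  have h2 := Real.log_le_log hx h
  rw [Real.log_pow] at h2
  push_cast at h2
  exact h2

theorem le_pow_P {P : ℝ} (hP : 8192 ≤ P) {a : ℕ} {K x : ℝ} (h : K ≤ 8192)
    (hx : x ≤ K * P ^ a) : x ≤ P ^ (a + 1) := hx.trans (mul_pow_le hP h)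

/-- The coordinates of two samples in the same frame of the plank. -/
theorem pos_diff {F : Fam 3 J} {ς : Fin 3 → Fin 3} {w m lam N M : ℕ} {P : ℝ} (hP : 8192 ≤ P)
    (hPM : P = 2 ^ M) (hlam : m ≤ lam + M) {z : Pln} {f s₁ t₁ a : ℝ}
    (haf : |a - f| ≤ P ^ 6 / 2 ^ m) {ω ω' : F.Ω} (hT : F.t ω = F.t ω')
    (h : PosB F ς w lam N z f s₁ t₁ ω) (h' : PosB F ς w lam N z f s₁ t₁ ω') (i : Fin 3) :
    |mco (tfr ς a s₁ t₁) (F.x ω) i - mco (tfr ς a s₁ t₁) (F.x ω') i| ≤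
      P ^ 8 / 2 ^ ppr w (w + m) N i := by
  have hP0 : 0 < P := by linarith
  have hP1 : (1 : ℝ) ≤ P := by linarith
  have e0 : ∀ j, F.x ω j - F.x ω' j = dx F z j ω - dx F z j ω' := by
    intro j
    unfold dx
    rw [hT]
    ring
  have q0 : (0 : ℝ) < 1 / 2 ^ w := by positivity
  have qm : (0 : ℝ) < 1 / 2 ^ (w + m) := by positivity
  have lamb : (12 : ℝ) / 2 ^ (w + lam) ≤ 12 * P / 2 ^ (w + m) := by
    rw [div_le_div_iff₀ (by positivity) (by positivity), hPM]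
    have : (2 : ℝ) ^ (w + m) ≤ 2 ^ M * 2 ^ (w + lam) := by
      rw [← pow_add]
      exact pow_le_pow_right₀ (by norm_num) (by omega)
    linarith
  have key : ∀ ω₁, PosB F ς w lam N z f s₁ t₁ ω₁ → |dx F z (ς 1) ω₁ - a * dx F z (ς 0) ω₁| ≤
      (12 * P + 2 * P ^ 6) / 2 ^ (w + m) := by
    intro ω₁ h₁
    have e1 : dx F z (ς 1) ω₁ - a * dx F z (ς 0) ω₁ = (dx F z (ς 1) ω₁ - f * dx F z (ς 0) ω₁) -
        (a - f) * dx F z (ς 0) ω₁ := by ring
    rw [e1]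
    have t1 := abs_sub (dx F z (ς 1) ω₁ - f * dx F z (ς 0) ω₁) ((a - f) * dx F z (ς 0) ω₁)
    have t2 : |(a - f) * dx F z (ς 0) ω₁| ≤ P ^ 6 / 2 ^ m * (2 / 2 ^ w) := by
      rw [abs_mul]
      exact mul_le_mul haf h₁.pe (abs_nonneg _) (by positivity)
    have e2 : P ^ 6 / 2 ^ m * (2 / 2 ^ w) = 2 * P ^ 6 / 2 ^ (w + m) := by
      rw [pow_add]
      field_simp
    rw [e2] at t2
    have t3 := h₁.pu.trans lamb
    rw [add_div]
    linarith
  fin_cases i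
  · change |mco (tfr ς a s₁ t₁) (F.x ω) 0 - mco (tfr ς a s₁ t₁) (F.x ω') 0| ≤ P ^ 8 / 2 ^ w
    rw [Box.mco_tfr0, Box.mco_tfr0, e0]
    have t1 := abs_sub (dx F z (ς 0) ω) (dx F z (ς 0) ω')
    have t2 := h.pe
    have t3 := h'.pe
    have t4 : (4 : ℝ) / 2 ^ w ≤ P ^ 8 / 2 ^ w := by
      refine div_le_div_of_nonneg_right ?_ (by positivity)
      have := one_le_pow₀ hP1 (n := 7)
      have e3 : P ^ 8 = P ^ 7 * P := by ring
      rw [e3]
      nlinarith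
    have e4 : (4 : ℝ) / 2 ^ w = 2 / 2 ^ w + 2 / 2 ^ w := by ring
    linarith
  · change |mco (tfr ς a s₁ t₁) (F.x ω) 1 - mco (tfr ς a s₁ t₁) (F.x ω') 1| ≤ P ^ 8 / 2 ^ (w + m)
    rw [Box.mco_tfr1, Box.mco_tfr1]
    have e1 : F.x ω (ς 1) - a * F.x ω (ς 0) - (F.x ω' (ς 1) - a * F.x ω' (ς 0)) =
        (dx F z (ς 1) ω - a * dx F z (ς 0) ω) - (dx F z (ς 1) ω' - a * dx F z (ς 0) ω') := by
      have := e0 (ς 1)
      have := e0 (ς 0)
      linear_combination e0 (ς 1) - a * e0 (ς 0)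
    rw [e1]
    have t1 := abs_sub (dx F z (ς 1) ω - a * dx F z (ς 0) ω)
      (dx F z (ς 1) ω' - a * dx F z (ς 0) ω')
    have t2 := key ω h
    have t3 := key ω' h'
    have t4 : (12 * P + 2 * P ^ 6) / 2 ^ (w + m) + (12 * P + 2 * P ^ 6) / 2 ^ (w + m) ≤
        P ^ 8 / 2 ^ (w + m) := by
      rw [← add_div]
      refine div_le_div_of_nonneg_right ?_ (by positivity)
      have k1 : P ^ 1 ≤ P ^ 6 := pow_le hP (by norm_num)
      rw [pow_one] at k1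
      have k2 : 28 * P ^ 6 ≤ P ^ 7 := mul_pow_le hP (by norm_num)
      have k3 : P ^ 7 ≤ P ^ 8 := pow_le hP (by norm_num)
      linarith
    linarith
  · change |mco (tfr ς a s₁ t₁) (F.x ω) 2 - mco (tfr ς a s₁ t₁) (F.x ω') 2| ≤ P ^ 8 / 2 ^ N
    rw [Box.mco_tfr2, Box.mco_tfr2]
    have e1 : F.x ω (ς 2) - s₁ * F.x ω (ς 1) - t₁ * F.x ω (ς 0) -
        (F.x ω' (ς 2) - s₁ * F.x ω' (ς 1) - t₁ * F.x ω' (ς 0)) =
        (dx F z (ς 2) ω - s₁ * dx F z (ς 1) ω - t₁ * dx F z (ς 0) ω) -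
        (dx F z (ς 2) ω' - s₁ * dx F z (ς 1) ω' - t₁ * dx F z (ς 0) ω') := by
      linear_combination e0 (ς 2) - s₁ * e0 (ς 1) - t₁ * e0 (ς 0)
    rw [e1]
    have t1 := abs_sub (dx F z (ς 2) ω - s₁ * dx F z (ς 1) ω - t₁ * dx F z (ς 0) ω)
      (dx F z (ς 2) ω' - s₁ * dx F z (ς 1) ω' - t₁ * dx F z (ς 0) ω')
    have t2 := h.pn
    have t3 := h'.pn
    have t4 : (12 : ℝ) / 2 ^ N + 12 / 2 ^ N ≤ P ^ 8 / 2 ^ N := by
      rw [← add_div]
      refine div_le_div_of_nonneg_right ?_ (by positivity)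
      have := one_le_pow₀ hP1 (n := 7)
      have e3 : P ^ 8 = P ^ 7 * P := by ring
      rw [e3]
      nlinarith
    linarith

/-- **The deficit beyond the natural box** from the entropy of the positions given the plank `z`. -/
theorem core {F : Fam 3 J} {p : F.Ω → ℝ} (hp : IsLaw p) {ς : Fin 3 → Fin 3}
    {w m lam Q N M : ℕ} {P : ℝ} (hP : 8192 ≤ P) (hPM : P = 2 ^ M) (hN : w + m + Q ≤ N)
    (hlam : m ≤ lam + M) {Λ : Type} (κ : F.Ω → Λ) (pl : Λ → Pln) (al ad : F.Ω → ℝ)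
    (dgv : F.Ω → ℤ) (had : ∀ ω, ad ω = dgv ω / 2 ^ m) (hda : ∀ ω, |al ω - ad ω| ≤ 1 / 2 ^ m)
    (z : F.Ω → Pln) (f s₁ t₁ : Pln → ℝ) (hal : ∀ ω, 0 < p ω → |al ω| ≤ P)
    (hnf : ∀ ω, 0 < p ω → NearFr P (2 ^ m) (2 ^ w * 2 ^ Q / 2 ^ N) (f (z ω)) (s₁ (z ω))
      (t₁ (z ω)) (-(pl (κ ω)).s) (-(pl (κ ω)).c) (al ω))
    (hpb : ∀ ω, 0 < p ω → PosB F ς w lam N (z ω) (f (z ω)) (s₁ (z ω)) (t₁ (z ω)) ω) :
    F.vdf p ς (w + Q) (w + m + Q) N ad (fun ω => -(pl (κ ω)).s) (fun ω => -(pl (κ ω)).c)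
        (fun ω => (dgv ω, (κ ω, F.W ω))) ≤
      (((N : ℝ) - w) + ((N : ℝ) - ((w + m : ℕ) : ℝ))) * Real.log 2 -
        CH p (F.X N) (fun ω => ((κ ω, z ω), F.W ω)) + 110 * M * Real.log 2 := by
  have h0 := hp.nonneg
  have hP0 : 0 < P := by linarith
  have hP1 : (1 : ℝ) ≤ P := by linarith
  have hM0 : (0 : ℝ) ≤ M := Nat.cast_nonneg _
  have hlog2 : 0 < Real.log 2 := Real.log_pos one_lt_two
  obtain ⟨Θ, hΘ⟩ : ∃ Θ : F.Ω → ℤ × (Λ × (ℕ × F.ζ)), Θ = fun ω => (dgv ω, (κ ω, F.W ω)) :=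
    ⟨_, rfl⟩
  obtain ⟨s, hs⟩ : ∃ s : F.Ω → ℝ, s = fun ω => -(pl (κ ω)).s := ⟨_, rfl⟩
  obtain ⟨t, ht⟩ : ∃ t : F.Ω → ℝ, t = fun ω => -(pl (κ ω)).c := ⟨_, rfl⟩
  obtain ⟨Θ', hΘ'⟩ : ∃ Θ' : F.Ω → Pln × (ℤ × (Λ × (ℕ × F.ζ))), Θ' = fun ω => (z ω, Θ ω) :=
    ⟨_, rfl⟩
  rw [← hΘ, ← hs, ← ht]
  have had' : ∀ ω ω', dgv ω = dgv ω' → ad ω = ad ω' := fun ω ω' e => by rw [had, had, e]
  have fd1 : Fd p Θ' ad s t := by
    intro ω ω' _ _ e
    rw [hΘ', hΘ] at e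
    have e1 := Prod.ext_iff.mp e
    have e2 := Prod.ext_iff.mp e1.2
    have e3 : κ ω = κ ω' := (Prod.ext_iff.mp e2.2).1
    change (ad ω, s ω, t ω) = (ad ω', s ω', t ω')
    rw [had' ω ω' e2.1, hs, ht]
    simp only [e3]
  have fd2 : Fd p Θ' ad (fun ω => s₁ (z ω)) (fun ω => t₁ (z ω)) := by
    intro ω ω' _ _ e
    rw [hΘ', hΘ] at e
    have e1 := Prod.ext_iff.mp e
    have e2 := Prod.ext_iff.mp e1.2
    have e3 : z ω = z ω' := e1.1
    change (ad ω, s₁ (z ω), t₁ (z ω)) = (ad ω', s₁ (z ω'), t₁ (z ω'))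
    rw [had' ω ω' e2.1, e3]
  have pm0 : (0 : ℝ) < 2 ^ m := by positivity
  -- the condition contains the plank
  have k1 := vdf_cond (σ := ς) (a := ad) (s := s) (t := t) (r := w + Q) (U := w + m + Q) (N := N)
    hp Θ Θ' (fun ω ω' _ _ e => by rw [hΘ'] at e; exact (Prod.ext_iff.mp e).2)
  -- the frame of the plank
  have hbd : ∀ ω, 0 < p ω → |ad ω| ≤ P ^ 2 ∧ |s₁ (z ω)| ≤ P ^ 2 ∧ |t₁ (z ω)| ≤ P ^ 2 := by
    intro ω hω
    have a1 := (hnf ω hω).sb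
    have a2 := (hnf ω hω).tb
    have a3 := hal ω hω
    have a4 := hda ω
    have a5 : (1 : ℝ) / 2 ^ m ≤ 1 := by
      rw [div_le_one pm0]
      exact one_le_pow₀ (by norm_num)
    have a6 : |ad ω| ≤ |al ω| + |al ω - ad ω| := by
      have e1 : ad ω = al ω - (al ω - ad ω) := by ring
      calc |ad ω| = |al ω - (al ω - ad ω)| := by rw [← e1]
        _ ≤ _ := abs_sub _ _
    have a7 : 22 + P ≤ P ^ 2 := by nlinarith
    exact ⟨by linarith, by linarith, by linarith⟩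
  have hB1 : (1 : ℝ) ≤ P ^ 2 := one_le_pow₀ hP1
  have hD1 : (1 : ℝ) ≤ P ^ 13 := one_le_pow₀ hP1
  have k2 := vdf_chg (σ := ς) (a := ad) (s := s) (t := t) (a' := ad) (s' := fun ω => s₁ (z ω))
    (t' := fun ω => t₁ (z ω)) (r := w + Q) (U := w + m + Q) (N := N) hp hB1 hD1 (by omega) hN hbd
    (by
      intro ω hω
      have a1 := (hnf ω hω).ds
      have a2 := (hnf ω hω).dt
      obtain ⟨E, hE⟩ : ∃ E : ℝ, E = 2 ^ w * 2 ^ Q / 2 ^ N := ⟨_, rfl⟩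
      have hE0 : 0 < E := by rw [hE]; positivity
      rw [← hE] at a1 a2
      have e1 : (2 : ℝ) ^ (w + Q) / 2 ^ N = E := by rw [hE, pow_add]
      have e2 : (2 : ℝ) ^ (w + m + Q) / 2 ^ N = 2 ^ m * E := by
        rw [hE, pow_add, pow_add]
        ring
      refine ⟨?_, ?_, ?_⟩
      · rw [sub_self, abs_zero]
        positivity
      · rw [mul_div_assoc, e2]
        have b1 : |s ω - s₁ (z ω)| ≤ P ^ 7 * 2 ^ m * E := by rw [hs]; exact a1
        have b2 : P ^ 7 * (2 ^ m * E) ≤ P ^ 13 * (2 ^ m * E) :=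
          mul_le_mul_of_nonneg_right (pow_le hP (by norm_num)) (by positivity)
        linarith
      · rw [mul_div_assoc, e1]
        have b1 : |s ω - s₁ (z ω)| ≤ P ^ 7 * 2 ^ m * E := by rw [hs]; exact a1
        have b2 : |(t ω - t₁ (z ω)) + (s ω - s₁ (z ω)) * al ω| ≤ P ^ 12 * E := by
          rw [hs, ht]; exact a2
        have e3 : (t ω - t₁ (z ω)) + (s ω - s₁ (z ω)) * ad ω =
            ((t ω - t₁ (z ω)) + (s ω - s₁ (z ω)) * al ω) - (s ω - s₁ (z ω)) * (al ω - ad ω) := by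
          ring
        rw [e3]
        have t1 := abs_sub ((t ω - t₁ (z ω)) + (s ω - s₁ (z ω)) * al ω)
          ((s ω - s₁ (z ω)) * (al ω - ad ω))
        have t2 : |(s ω - s₁ (z ω)) * (al ω - ad ω)| ≤ P ^ 7 * 2 ^ m * E * (1 / 2 ^ m) := by
          rw [abs_mul]
          exact mul_le_mul b1 (hda ω) (abs_nonneg _) (by positivity)
        have e4 : P ^ 7 * 2 ^ m * E * (1 / 2 ^ m) = P ^ 7 * E := by field_simp
        rw [e4] at t2
        have k3 : 2 * P ^ 12 ≤ P ^ 13 := mul_pow_le hP (by norm_num)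
        have k4 : P ^ 7 ≤ P ^ 12 := pow_le hP (by norm_num)
        have k5 : (P ^ 12 + P ^ 7) * E ≤ P ^ 13 * E :=
          mul_le_mul_of_nonneg_right (by linarith) hE0.le
        linarith) Θ' fd1 fd2
  -- smaller levels
  have k3 := vdf_mono (σ := ς) (a := ad) (s := fun ω => s₁ (z ω)) (t := fun ω => t₁ (z ω))
    (r := w) (U := w + m) (r' := w + Q) (U' := w + m + Q) (N := N) hp (by omega) (by omega) Θ'
  -- the box is known, given the plank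
  obtain ⟨Y, hY⟩ : ∃ Y : F.Ω → (Λ × Pln) × (ℕ × F.ζ), Y = fun ω => ((κ ω, z ω), F.W ω) :=
    ⟨_, rfl⟩
  obtain ⟨bx, hbx⟩ : ∃ bx, bx = F.sbx ς w (w + m) N ad (fun ω => s₁ (z ω))
    (fun ω => t₁ (z ω)) := ⟨_, rfl⟩
  have hYz : ∀ ω ω', Y ω = Y ω' → κ ω = κ ω' ∧ z ω = z ω' ∧ F.W ω = F.W ω' := by
    intro ω ω' e
    rw [hY] at e
    have e1 := Prod.ext_iff.mp e
    have e2 := Prod.ext_iff.mp e1.1
    exact ⟨e2.1, e2.2, e1.2⟩
  have hadf : ∀ ω, 0 < p ω → |ad ω - f (z ω)| ≤ P ^ 6 / 2 ^ m := by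
    intro ω hω
    have a1 := (hnf ω hω).af
    have a2 := hda ω
    have e1 : ad ω - f (z ω) = (al ω - f (z ω)) - (al ω - ad ω) := by ring
    rw [e1]
    have t1 := abs_sub (al ω - f (z ω)) (al ω - ad ω)
    have t2 : P ^ 5 / 2 ^ m + 1 / 2 ^ m ≤ P ^ 6 / 2 ^ m := by
      rw [← add_div]
      refine div_le_div_of_nonneg_right ?_ pm0.le
      have k3 : 2 * P ^ 5 ≤ P ^ 6 := mul_pow_le hP (by norm_num)
      have := one_le_pow₀ hP1 (n := 5)
      linarith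
    linarith
  have c1 : CH p dgv Y ≤ 8 * M * Real.log 2 := by
    have d1 : CH p dgv Y ≤ CH p (fun ω (_ : Fin 1) => ad ω) Y := by
      refine CH_mono_left h0 fun ω ω' _ _ e => ?_
      have e1 := congrFun (Prod.ext_iff.mp e).1 0
      have e2 : ad ω = ad ω' := e1
      rw [had, had, div_left_inj' pm0.ne'] at e2
      exact_mod_cast e2
    have d2 := Box.CH_grid (F := F) (p := p) hp (n := 1) (l := m) (fun ω _ => ad ω)
      (2 * P ^ 6) (fun ω _ => ⟨dgv ω, had ω⟩) Y (by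
        intro ω ω' hω hω' e _
        have e1 := (hYz ω ω' e).2.1
        have a1 := hadf ω hω
        have a2 := hadf ω' hω'
        rw [← e1] at a2
        have e2 : ad ω - ad ω' = (ad ω - f (z ω)) - (ad ω' - f (z ω)) := by ring
        rw [e2]
        have t1 := abs_sub (ad ω - f (z ω)) (ad ω' - f (z ω))
        have e3 : 2 * P ^ 6 / 2 ^ m = P ^ 6 / 2 ^ m + P ^ 6 / 2 ^ m := by ring
        linarith)
    have d3 : Real.log (2 * (2 * P ^ 6) + 3) ≤ (8 : ℕ) * M * Real.log 2 := by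
      refine log_le_M hPM (by positivity) ?_
      have k3 : 7 * P ^ 7 ≤ P ^ 8 := mul_pow_le hP (by norm_num)
      have k4 : P ^ 6 ≤ P ^ 7 := pow_le hP (by norm_num)
      have := one_le_pow₀ hP1 (n := 7)
      linarith
    have e4 : ((1 : ℕ) : ℝ) * Real.log (2 * (2 * P ^ 6) + 3) =
        Real.log (2 * (2 * P ^ 6) + 3) := by norm_num
    rw [e4] at d2
    push_cast at d3
    linarith
  have c2 : CH p bx (fun ω => (dgv ω, Y ω)) ≤ 30 * M * Real.log 2 := by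
    have d1 := Box.CH_sbx (F := F) (p := p) (σ := ς) (a := ad) (s := fun ω => s₁ (z ω))
      (t := fun ω => t₁ (z ω)) hp (r := w) (U := w + m) (P := N) (C := P ^ 8)
      (fun ω => (dgv ω, Y ω)) (by
        intro ω ω' hω hω' e
        have e1 := Prod.ext_iff.mp e
        obtain ⟨-, e3, e4⟩ := hYz ω ω' e1.2
        have e5 := had' ω ω' e1.1
        refine ⟨⟨e5, by rw [e3], by rw [e3]⟩, fun i => ?_⟩
        have hT : F.t ω = F.t ω' := by
          have : F.T ω = F.T ω' := (Prod.ext_iff.mp e4).1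
          unfold Fam.t
          rw [this]
        have b2 := hpb ω' hω'
        rw [← e3] at b2
        exact pos_diff hP hPM hlam (hadf ω hω) hT (hpb ω hω) b2 i)
    rw [← hbx] at d1
    have d3 : Real.log (2 * P ^ 8 + 3) ≤ (10 : ℕ) * M * Real.log 2 := by
      refine log_le_M hPM (by positivity) ?_
      have k3 : 5 * P ^ 9 ≤ P ^ 10 := mul_pow_le hP (by norm_num)
      have k4 : P ^ 8 ≤ P ^ 9 := pow_le hP (by norm_num)
      have := one_le_pow₀ hP1 (n := 9)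
      linarith
    push_cast at d1 d3
    linarith
  have c3 : CH p (F.X N) Y ≤ 38 * M * Real.log 2 +
      CH p (F.X N) (fun ω => (bx ω, Θ' ω)) := by
    have d1 := CH_le_add h0 (F.X N) dgv Y
    have d2 := CH_le_add h0 (F.X N) bx (fun ω => (dgv ω, Y ω))
    have d3 : CH p (F.X N) (fun ω => (bx ω, (dgv ω, Y ω))) ≤
        CH p (F.X N) (fun ω => (bx ω, Θ' ω)) := by
      refine CH_mono_cond h0 fun ω ω' _ _ e => ?_
      have e1 := Prod.ext_iff.mp e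
      have e2 := Prod.ext_iff.mp e1.2
      obtain ⟨e3, e4, e5⟩ := hYz ω ω' e2.2
      have e6 : dgv ω = dgv ω' := e2.1
      refine Prod.ext e1.1 ?_
      rw [hΘ', hΘ]
      simp only [e3, e4, e5, e6]
    linarith
  unfold Fam.vdf at k3
  rw [← hbx] at k3
  unfold Fam.vdf at k1 k2 ⊢
  have l1 : Real.log (6 * P ^ 2 + 3) ≤ (4 : ℕ) * M * Real.log 2 := by
    refine log_le_M hPM (by positivity) ?_
    have k3 : 9 * P ^ 3 ≤ P ^ 4 := mul_pow_le hP (by norm_num)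
    have k4 : P ^ 2 ≤ P ^ 3 := pow_le hP (by norm_num)
    have := one_le_pow₀ hP1 (n := 3)
    linarith
  have l2 : Real.log (6 * P ^ 13 + 3) ≤ (15 : ℕ) * M * Real.log 2 := by
    refine log_le_M hPM (by positivity) ?_
    have k3 : 9 * P ^ 14 ≤ P ^ 15 := mul_pow_le hP (by norm_num)
    have k4 : P ^ 13 ≤ P ^ 14 := pow_le hP (by norm_num)
    have := one_le_pow₀ hP1 (n := 14)
    linarith
  push_cast at l1 l2 k1 k2 k3 ⊢
  have hML : 0 ≤ (M : ℝ) * Real.log 2 := by positivity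
  rw [← hY]
  linarith

end Pool.S6C.Nst
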