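import Pool.Agent.H16.S6.StartC
import Pool.Agent.H75.S6C.Th

/-!
# (NSTART) from the U-step
-/

set_option autoImplicit false

namespace Pool.S6C.Nst

open Finset Real
open Pool.Agent.H49.Ent Pool.Agent.H32.Dense Pool.STK Pool.KA Pool.KSAT Pool.K2S Pool.PB Pool.KS6
open Pool.S6C.Uvc Pool.S6U Pool.S6V

/-- The deficit at a window beyond the row is not positive. -/
theorem small_far {S : PCl 3} {a R h₁ : ℝ} {i₀ : Fin 3} {c s₂ : ℝ} {r : ℝ → ℝ} {D : Set ℝ}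
    {σ : ℝ → Row} (hC : Cs S a R h₁ i₀ c s₂ r D σ) {T p : ℝ} {v : ℚ} {q H : ℝ} {x : ℚ}
    (hx : p ≤ x) {h : ℝ} (hh : 0 < h) : VSmall S i₀ (σ 1) T p v q H x h := by
  refine ⟨1, one_pos, fun k _ _ C _ => ?_⟩
  refine Clp.base 1 one_pos 0 fun J _ F A hS ς _ _ Λ κ pl al _ _ _ => ?_
  have hA : 0 < Pe F.p A := lt_of_lt_of_le (Real.exp_pos _) (hC.st _ _ _ _ hS).2.2.2
  have hJ0 : (0 : ℝ) ≤ J := Nat.cast_nonneg J
  have hf : ⌊p * (J : ℝ)⌋₊ ≤ ⌊(x : ℝ) * J⌋₊ :=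
    Nat.floor_le_floor (mul_le_mul_of_nonneg_right hx hJ0)
  have e1 : lr p q x J = ⌊p * (J : ℝ)⌋₊ := by
    unfold lr
    omega
  have e2 : lu (σ 1) p q k x J = ⌊p * (J : ℝ)⌋₊ := by
    unfold lu
    omega
  unfold Vd
  rw [e1, e2]
  have k1 := Vd.vdf_le (F := F) (σ := ς) (a := ald (ld (σ 1) p q k x J) al)
    (s := fun ω => -(pl (κ ω)).s) (t := fun ω => -(pl (κ ω)).c) (isLaw_cond F.isLaw hA)
    (r := ⌊p * (J : ℝ)⌋₊) (U := ⌊p * (J : ℝ)⌋₊) (N := ⌊p * (J : ℝ)⌋₊)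
    (fun ω => (Uni.dg (ld (σ 1) p q k x J) al ω, (κ ω, F.W ω)))
  have e3 : (((⌊p * (J : ℝ)⌋₊ : ℝ) - ⌊p * (J : ℝ)⌋₊) +
      ((⌊p * (J : ℝ)⌋₊ : ℝ) - ⌊p * (J : ℝ)⌋₊)) * Real.log 2 = 0 := by ring
  rw [e3] at k1
  exact k1.trans (by positivity)

/-- **(NSTART)** from the U-step. -/
theorem nstart_of (hUV : UVStmt) : NStartStmt := by
  classical
  intro S a R h₁ i₀ c s₂ r D σ hC act κ₀ hact Q ws hPR T p v q H hPV hpQ y₁ hy₁ hvy hrot hyp h hh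
  by_cases hpy : p < y₁
  · -- the window is beyond the row
    obtain ⟨x, hx1, hx2⟩ := exists_rat_btwn (max_lt (show (v : ℝ) < y₁ by exact_mod_cast hvy) hpy)
    refine ⟨x, by exact_mod_cast (le_max_left _ _).trans_lt hx1, by exact_mod_cast hx2,
      small_far hC ((le_max_right _ _).trans hx1.le) hh⟩
  push Not at hpy
  have hp1 := hPV.p1
  have hv0 : (0 : ℝ) < v := by exact_mod_cast hPV.v0
  have hvy' : (v : ℝ) < y₁ := by exact_mod_cast hvy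
  have hy0 : (0 : ℝ) < y₁ := by linarith
  have hy1 : (y₁ : ℝ) < 1 := by linarith
  have hy0' : (0 : ℚ) ≤ y₁ := by exact_mod_cast hy0.le
  have hy1' : y₁ ≤ 1 := by exact_mod_cast hy1.le
  have hR := hC.row 1 one_pos le_rfl hC.D1
  have hpi : (σ 1).pi ≤ 1 := num_le_cap hC.ne zero_le_one hR.pi
  -- the windows
  obtain ⟨w₁, hw1, hw1'⟩ := exists_rat_btwn (max_lt hy₁ hvy')
  obtain ⟨w₂, hw2, hw2'⟩ := exists_rat_btwn hw1'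
  have hvw : (v : ℝ) < w₁ := (le_max_right _ _).trans_lt hw1
  have hww : w₁ < w₂ := by exact_mod_cast hw2
  have hw0 : (0 : ℚ) < w₁ := by
    have : (0 : ℝ) < w₁ := by linarith
    exact_mod_cast this
  have hw21 : (w₂ : ℝ) < 1 := by linarith
  have hr2 : (σ 1).rot w₂ ≤ (σ 1).rot y₁ :=
    rot_window hC.ne hR (hw0.le.trans hww.le) (by exact_mod_cast hw2'.le) hy1'
  have hth : p < (σ 1).th w₁ := by
    obtain ⟨v', h0, h1, h2, h3⟩ := hPR.isWs1.1 ((Q - p) / 2) (by linarith) w₁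
      ((le_max_left _ _).trans_lt hw1)
    have h4 := th_mono hC.ne hC.st le_rfl hR v' w₁ h0 (by exact_mod_cast h2.le) (by linarith)
    linarith
  obtain ⟨ρ₀, hρ₀⟩ : ∃ ρ₀ : ℝ, ρ₀ = y₁ - w₂ := ⟨_, rfl⟩
  have hρ0 : 0 < ρ₀ := by rw [hρ₀]; linarith
  obtain ⟨gp, hgp⟩ : ∃ gp, gp = (σ 1).pi - (σ 1).rot y₁ := ⟨_, rfl⟩
  have hg0 : 0 < gp := by rw [hgp]; linarith
  obtain ⟨μ, hμ⟩ : ∃ μ, μ = min (h / 1000) (ρ₀ / 50) := ⟨_, rfl⟩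
  have hμ0 : 0 < μ := by rw [hμ]; exact lt_min (by linarith) (by linarith)
  have hμh : μ ≤ h / 1000 := by rw [hμ]; exact min_le_left _ _
  have hμρ : μ ≤ ρ₀ / 50 := by rw [hμ]; exact min_le_right _ _
  have hq0 := hPV.q0
  obtain ⟨x₁, k', hx1, hx2, hk0, hk1, hcl⟩ := hUV S a R h₁ i₀ c s₂ r D σ hC act κ₀ hact p hPV.p0
    hp1 w₁ w₂ hw0 hww hw21 (by linarith) (by linarith) hth (μ / 2) (by linarith)
  have hx0 : (0 : ℚ) < x₁ := hw0.trans hx1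
  have hx2' : (x₁ : ℝ) < w₂ := by exact_mod_cast hx2
  have hx1' : (w₁ : ℝ) < x₁ := by exact_mod_cast hx1
  have hx11 : (x₁ : ℝ) < 1 := by linarith
  have hx11' : x₁ ≤ 1 := by exact_mod_cast hx11.le
  have hxw : x₁ ≤ y₁ := by
    have : (x₁ : ℝ) ≤ y₁ := by linarith
    exact_mod_cast this
  have hrx : (σ 1).rot x₁ ≤ (σ 1).rot y₁ := rot_window hC.ne hR hx0.le hxw hy1'
  have hrx0 : 0 ≤ (σ 1).rot x₁ := num_nonneg hC.ne (hR.rot x₁ hx0.le hx11')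
  have hthx : p < (σ 1).th x₁ := hth.trans_le
    (th_mono hC.ne hC.st le_rfl hR w₁ x₁ hw0.le hx1.le hx11.le)
  refine ⟨x₁, ?_, ?_, ?_⟩
  · have : (v : ℝ) < x₁ := by linarith
    exact_mod_cast this
  · have : (x₁ : ℝ) < y₁ := by linarith
    exact_mod_cast this
  refine ⟨μ / 4, by linarith, fun k hk hkμ C hC1 => ?_⟩
  -- the constants
  obtain ⟨x, hx⟩ : ∃ x, x = min (min (μ / 2) (h₁ / 4)) (min (gp / 8) (1 / 4)) := ⟨_, rfl⟩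
  have hh₁ := hC.h₁0
  have hxp : 0 < x := by
    rw [hx]
    exact lt_min (lt_min (by linarith) (by linarith)) (lt_min (by linarith) (by norm_num))
  obtain ⟨h₂, hh₂⟩ : ∃ h₂, h₂ = min (μ / 4) (gp / 8) := ⟨_, rfl⟩
  have hh20 : 0 < h₂ := by rw [hh₂]; exact lt_min (by linarith) (by linarith)
  have hcst : Cst h h₁ ρ₀ gp x₁ ((σ 1).rot x₁) (σ 1).pi q p v T μ x h₂ := by
    refine ⟨hh, hh₁, hv0.le, by linarith, hrx0, hq0, hp1.le, hPV.T0.le, hPV.pT, ?_, ?_, hg0, hρ0,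
      hμ0, hμh, hμρ, hxp, ?_, ?_, ?_, ?_, hh20, ?_, ?_⟩
    · rw [hρ₀]; linarith
    · rw [hgp]; linarith
    · rw [hx]; exact (min_le_left _ _).trans (min_le_left _ _)
    · rw [hx]; exact (min_le_left _ _).trans (min_le_right _ _)
    · rw [hx]; exact (min_le_right _ _).trans (min_le_left _ _)
    · rw [hx]; exact (min_le_right _ _).trans (min_le_right _ _)
    · rw [hh₂]; exact min_le_left _ _
    · rw [hh₂]; exact min_le_right _ _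
  obtain ⟨ϖ, hϖ⟩ : ∃ ϖ, ϖ = min (h / 16) (1 / 2) := ⟨_, rfl⟩
  have hϖ0 : 0 < ϖ := by rw [hϖ]; exact lt_min (by linarith) (by norm_num)
  have hϖh : ϖ ≤ h / 16 := by rw [hϖ]; exact min_le_left _ _
  have hϖ1 : ϖ ≤ 1 / 2 := by rw [hϖ]; exact min_le_right _ _
  have hr1 : (σ 1).rot x₁ + h₂ ≤ 1 := by
    have := hcst.gpp
    have := hcst.h2g
    linarith
  obtain ⟨J₀, hJ₀⟩ := lrg_ev (C := C) hh hh₁ hρ0 hg0 hμ0 hC1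
  have c1 := hcl.ev (show (0 : ℝ) < 1 / 2 by norm_num)
  have c2 := glu hC (Q := 1) le_rfl hR x₁ hx0.le hx11' (v := (σ 1).rot x₁ - k') (s := p)
    (by linarith) hthx (by linarith) hPV.p0 hp1.le
  have c3 := cmp_most hC x₁ hx0.le hx11' hh20 hxp hϖ0 hr1
  have c4 : Clp S (fun _ F A => 0 < Pe F.p A) :=
    Clp.base 1 one_pos 0 fun J _ F A hS =>
      lt_of_lt_of_le (Real.exp_pos _) (hC.st _ _ _ _ hS).2.2.2
  refine Clp.mono (J₂ := J₀) (((c1.and c2).and c3).and c4) ?_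
  rintro J hJ F A ⟨⟨⟨d1, d2⟩, d3⟩, d4⟩ ς hinj hς Λ κ pl al hk' hNSt ho
  have hl := hJ₀ J hJ
  obtain ⟨iu', iN', hi, z, hz, ⟨φz, hφz⟩, ψz, hψz⟩ := d2
  rw [ptq_one F] at hφz
  obtain ⟨hinc, ⟨φk, hφk⟩, ψk, hψk⟩ := hk'
  obtain ⟨⟨φa, hφa⟩, hab, nu, hnu⟩ := ho
  have hn := num_mk (k := k) (k' := k') hcst hl hC1 hk hkμ hk0 hk1
  obtain ⟨g1, g2, g3, g4⟩ := cmp_ok hcst hl
  have hwJ : ⌊(x₁ : ℝ) * J⌋₊ ≤ J := floor_row_one hx11.le J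
  have hsl : ∀ ω, slam F ⌊(v : ℝ) * J⌋₊ ω = ((slam F ⌊(x₁ : ℝ) * J⌋₊ ω).1,
      (slam F ⌊(x₁ : ℝ) * J⌋₊ ω).2.1, (slam F ⌊(x₁ : ℝ) * J⌋₊ ω).2.2 /
        2 ^ (⌊(x₁ : ℝ) * J⌋₊ - ⌊(v : ℝ) * J⌋₊)) := fun ω =>
    Pool.PB.slam_coarse F hn.vw hwJ ω
  have hL : LbD F A ς iu' iN' ⌊(x₁ : ℝ) * J⌋₊ ⌊((σ 1).rot x₁ - k') * J⌋₊ ⌊p * J⌋₊
      ⌊(v : ℝ) * J⌋₊ ⌊((σ 1).rot v - k) * J⌋₊ ⌊T * J⌋₊ ⌊((σ 1).pi - k) * J⌋₊ C κ pl al nu z := by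
    refine ⟨hinj, ?_, hinc, ?_, ?_, ?_, hab, hnu, ?_, ?_, ?_⟩
    · rw [hς]; exact hi
    · intro ω ω' h1 h2 e
      rw [hφk ω h1, hφk ω' h2, e]
    · intro ω ω' h1 h2 e
      rw [hψk ω h1, hψk ω' h2, hsl, hsl, e]
    · intro ω ω' h1 h2 e
      rw [hφa ω h1, hφa ω' h2, e]
    · rw [hς]; exact hz
    · intro ω ω' h1 h2 e
      rw [hφz ω h1, hφz ω' h2, e]
    · intro ω ω' h1 h2 e
      rw [hψz ω h1, hψz ω' h2, e]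
  have hvk := hL.vk
  have hvz := hL.vz
  rw [hς] at hvk hvz
  have d5 := d3 _ _ _ g1 g2 g3 rfl rfl g4 (ς 1) (ς 2) iu' iN' _ _ _ _ _ _ hvk hvz
  obtain ⟨G, hG⟩ : ∃ G : F.Ω → Prop, G = GG F A ς iu' iN' ⌊(x₁ : ℝ) * J⌋₊ ⌊p * J⌋₊
      ⌊(v : ℝ) * J⌋₊ ⌊T * J⌋₊ ⌈x * J⌉₊ ⌊((σ 1).rot x₁ + h₂) * J⌋₊ C κ pl z := ⟨_, rfl⟩
  have hGb : (1 - ϖ) * Pe F.p A ≤ Pe F.p G := by
    rw [hG]
    unfold GG
    rw [hς]
    exact d5
  have hGA : Sub G A := by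
    intro ω hω
    rw [hG] at hω
    exact hω.1.1
  have hhalf : 1 / 2 * Pe F.p A ≤ Pe F.p G :=
    (mul_le_mul_of_nonneg_right (by linarith) d4.le).trans hGb
  have d6 := d1 G hGA hhalf iu' iN' hi (Λ × Pln) (fun ω => (κ ω, z ω)) Prod.snd
    (fun ω hω => hz ω (hGA ω hω))
    ⟨fun u => (φk u, φz u), fun ω hω => Prod.ext (hφk ω (hGA ω hω)) (hφz ω (hGA ω hω))⟩
    ⟨fun s => (ψk (s.1, s.2.1, s.2.2 / 2 ^ (⌊(x₁ : ℝ) * J⌋₊ - ⌊(v : ℝ) * J⌋₊)), ψz s),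
      fun ω hω => by
        beta_reduce
        rw [← hsl, ← hψk ω (hGA ω hω), ← hψz ω (hGA ω hω)]⟩
  have key := one_big hn hL hG hϖ0.le hϖ1 d4 hGb d6
  have hfin := last (k := k) hcst hl hC1 hk hkμ hϖ0.le hϖ1 hϖh
  have hroom := hn.room
  have e1 : lr p q x₁ J = ⌊(x₁ : ℝ) * J⌋₊ + ⌊q * J⌋₊ := by
    unfold lr
    omega
  have e2 : lu (σ 1) p q k x₁ J = ⌊(x₁ : ℝ) * J⌋₊ + ⌊((σ 1).rot x₁ - k) * J⌋₊ + ⌊q * J⌋₊ := by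
    unfold lu
    omega
  have e3 : ld (σ 1) p q k x₁ J = ⌊((σ 1).rot x₁ - k) * J⌋₊ := by
    unfold ld
    rw [e1, e2]
    omega
  unfold Vd
  rw [e1, e2, e3]
  exact key.trans hfin

end Pool.S6C.Nst
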