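import Pool.Agent.H16.S6.Cmp
import Pool.Agent.H16.S6.Core
import Pool.Agent.H33.S6.NatDef
import Pool.Agent.H75.S6C.Glu
import Pool.Agent.H45.K2.PLF

/-!
# (NSTART) The deficit is small at windows just above the critical window of a Pliss row

From `UVStmt`: at a window `x₁` the positions are full up to the row `p`, given any label with a
plank of thickness `p`. The normal of this plank agrees with the normal of the given plank up to the
units of the natural box with the base velocity `q`.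
-/

set_option autoImplicit false

namespace Pool.S6C.Nst

open Finset Real
open Pool.Agent.H49.Ent Pool.Agent.H32.Dense Pool.STK Pool.KA Pool.KSAT Pool.K2S Pool.PB Pool.KS6
open Pool.S6C.Uvc Pool.S6U Pool.S6V

variable {J : ℕ}

theorem surj3 {ς : Fin 3 → Fin 3} (hς : Function.Injective ς) (j : Fin 3) :
    j = ς 0 ∨ j = ς 1 ∨ j = ς 2 := by
  obtain ⟨i, hi⟩ := Finite.injective_iff_surjective.1 hς j
  fin_cases i
  · exact Or.inl hi.symm
  · exact Or.inr (Or.inl hi.symm)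
  · exact Or.inr (Or.inr hi.symm)

/-- The normal of a label, as seen by the velocities. -/
theorem vp_of {F : Fam 3 J} {A : F.Ω → Prop} {i₀ iu iN : Fin 3}
    (hi : ∀ j : Fin 3, j = i₀ ∨ j = iu ∨ j = iN) {w w₀ lam P : ℕ} {C : ℝ} {y : F.Ω → Pln}
    (hI : ∀ ω, A ω → Inc i₀ iu iN w₀ lam P C (y ω) (F.t ω) (F.x ω) (F.d ω))
    (hp : ∀ ω ω', A ω → A ω' → Fam.pt F ω = Fam.pt F ω' → y ω = y ω')
    (hs : ∀ ω ω', A ω → A ω' → slam F w ω = slam F w ω' → y ω = y ω') :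
    VP F A i₀ iu iN w (C * (2 ^ w₀ / 2 ^ P)) (fun ω => (y ω).c) (fun ω => (y ω).s) := by
  refine ⟨hi, fun ω hω => (hI ω hω).s_le, ?_, ?_, ?_⟩
  · intro ω ω' hω hω' e
    have e1 := hp ω ω' hω hω' e
    have a1 := (hI ω hω).vn
    have a2 := (hI ω' hω').vn
    rw [← e1] at a2
    have e2 : fn i₀ iu iN (y ω).c (y ω).s (F.d ω) - fn i₀ iu iN (y ω).c (y ω).s (F.d ω') =
        (fn i₀ iu iN (y ω).c (y ω).s (F.d ω) - fn i₀ iu iN (y ω).c (y ω).s (y ω).db) -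
        (fn i₀ iu iN (y ω).c (y ω).s (F.d ω') - fn i₀ iu iN (y ω).c (y ω).s (y ω).db) := by
      ring
    rw [e2]
    refine (abs_sub _ _).trans ?_
    have e3 : C * 2 ^ w₀ / 2 ^ P = C * (2 ^ w₀ / 2 ^ P) := by ring
    rw [e3] at a1 a2
    linarith
  · intro ω ω' hω hω' e
    rw [hp ω ω' hω hω' e]
    exact ⟨rfl, rfl⟩
  · intro ω ω' hω hω' e
    rw [hs ω ω' hω hω' e]
    exact ⟨rfl, rfl⟩

/-- The integers and the small factor `P = 2 ^ M`. -/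
structure Num (w m lam Q N M v₀ T₀ q l L : ℕ) (C P : ℝ) : Prop where
  P8 : 8192 ≤ P
  PM : P = 2 ^ M
  CP : C ≤ P
  C1 : 1 ≤ C
  vw : v₀ ≤ w
  qM : q ≤ M
  lm : l ≤ m + M
  mlam : m ≤ lam + M
  mL : m ≤ L
  NT : N ≤ T₀ + Q + M
  room : w + m + Q + 20 * M ≤ N
  wlam : w + lam ≤ N

section num

variable {w m lam Q N M v₀ T₀ q l L : ℕ} {C P : ℝ}

theorem Num.q_le (h : Num w m lam Q N M v₀ T₀ q l L C P) : (2 : ℝ) ^ q ≤ P := by
  rw [h.PM]
  exact pow_le_pow_right₀ (by norm_num) h.qM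

theorem Num.l_le (h : Num w m lam Q N M v₀ T₀ q l L C P) : (2 : ℝ) ^ l ≤ 2 ^ m * P := by
  rw [h.PM, ← pow_add]
  exact pow_le_pow_right₀ (by norm_num) h.lm

theorem Num.lam_le (h : Num w m lam Q N M v₀ T₀ q l L C P) :
    (1 : ℝ) / 2 ^ lam ≤ P / 2 ^ m := by
  rw [div_le_div_iff₀ (by positivity) (by positivity), one_mul, h.PM, ← pow_add]
  exact pow_le_pow_right₀ (by norm_num) (by have := h.mlam; omega)

theorem Num.L_le (h : Num w m lam Q N M v₀ T₀ q l L C P) : (1 : ℝ) / 2 ^ L ≤ 1 / 2 ^ m :=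
  one_div_le_one_div_of_le (by positivity) (pow_le_pow_right₀ (by norm_num) h.mL)

theorem Num.E0 (_ : Num w m lam Q N M v₀ T₀ q l L C P) : (0 : ℝ) < 2 ^ w * 2 ^ Q / 2 ^ N := by
  positivity

theorem Num.T_le (h : Num w m lam Q N M v₀ T₀ q l L C P) :
    (2 : ℝ) ^ v₀ / 2 ^ T₀ ≤ P * (2 ^ w * 2 ^ Q / 2 ^ N) := by
  have e1 : P * (2 ^ w * 2 ^ Q / 2 ^ N) = P * (2 ^ w * 2 ^ Q) / 2 ^ N := by ring
  rw [e1, div_le_div_iff₀ (by positivity) (by positivity), h.PM, ← pow_add, ← pow_add, ← pow_add,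
    ← pow_add]
  exact pow_le_pow_right₀ (by norm_num) (by have := h.NT; have := h.vw; omega)

theorem Num.N_le (_ : Num w m lam Q N M v₀ T₀ q l L C P) :
    (2 : ℝ) ^ w / 2 ^ N ≤ 2 ^ w * 2 ^ Q / 2 ^ N := by
  refine div_le_div_of_nonneg_right ?_ (by positivity)
  have : (1 : ℝ) ≤ 2 ^ Q := one_le_pow₀ (by norm_num)
  have h2 : (0 : ℝ) < 2 ^ w := by positivity
  nlinarith

theorem Num.hroom (h : Num w m lam Q N M v₀ T₀ q l L C P) :
    P ^ 20 * 2 ^ m * (2 ^ w * 2 ^ Q / 2 ^ N) ≤ 1 := by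
  have e1 : P ^ 20 * 2 ^ m * (2 ^ w * 2 ^ Q / 2 ^ N) =
      P ^ 20 * 2 ^ m * (2 ^ w * 2 ^ Q) / 2 ^ N := by ring
  rw [e1, div_le_one (by positivity), h.PM, ← pow_mul, ← pow_add, ← pow_add, ← pow_add]
  exact pow_le_pow_right₀ (by norm_num) (by have := h.room; omega)

/-- The bounds of the relations, in the unit `E`. -/
theorem Num.bds (h : Num w m lam Q N M v₀ T₀ q l L C P) {E : ℝ}
    (hE : E = 2 ^ w * 2 ^ Q / 2 ^ N) :
    4 * 2 ^ q * (C * (2 ^ v₀ / 2 ^ T₀)) ≤ P ^ 4 * E ∧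
    4 * 2 ^ q * (2 * (2 ^ w / 2 ^ N)) ≤ P ^ 4 * E ∧
    4 * 2 ^ q * (C / 2 ^ L) ≤ P ^ 4 / 2 ^ m ∧
    4 * 2 ^ q * (2 / 2 ^ lam) ≤ P ^ 4 / 2 ^ m ∧
    800 * 2 ^ q * 2 ^ l * (C * (2 ^ v₀ / 2 ^ T₀) + 2 * (2 ^ w / 2 ^ N)) ≤ P ^ 6 * 2 ^ m * E := by
  have hP := h.P8
  have hP0 : 0 < P := by linarith
  have hC0 : 0 < C := by have := h.C1; linarith
  have hE0 : 0 < E := by rw [hE]; exact h.E0
  have pm0 : (0 : ℝ) < 2 ^ m := by positivity
  have a1 := h.q_le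
  have a2 := h.l_le
  have a3 := h.lam_le
  have a4 := h.L_le
  have a5 := h.T_le
  have a6 := h.N_le
  rw [← hE] at a5 a6
  have q0 : (0 : ℝ) < 2 ^ q := by positivity
  have l0 : (0 : ℝ) < 2 ^ l := by positivity
  have b1 : C * (2 ^ v₀ / 2 ^ T₀) ≤ P * (P * E) :=
    mul_le_mul h.CP a5 (by positivity) hP0.le
  have b2 : 2 * (2 ^ w / 2 ^ N) ≤ 2 * E := by linarith
  have b0 : 0 ≤ C * (2 ^ v₀ / 2 ^ T₀) := by positivity
  have b3 : (0 : ℝ) ≤ 2 * (2 ^ w / 2 ^ N) := by positivity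
  refine ⟨?_, ?_, ?_, ?_, ?_⟩
  · calc 4 * 2 ^ q * (C * (2 ^ v₀ / 2 ^ T₀)) ≤ 4 * P * (P * (P * E)) :=
        mul_le_mul (by linarith) b1 b0 (by positivity)
      _ = 4 * P ^ 3 * E := by ring
      _ ≤ P ^ 4 * E := mul_le_mul_of_nonneg_right (mul_pow_le hP (by norm_num)) hE0.le
  · calc 4 * 2 ^ q * (2 * (2 ^ w / 2 ^ N)) ≤ 4 * P * (2 * E) :=
        mul_le_mul (by linarith) b2 b3 (by positivity)
      _ = 8 * P ^ 1 * E := by ring
      _ ≤ P ^ 2 * E := mul_le_mul_of_nonneg_right (mul_pow_le hP (by norm_num)) hE0.le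
      _ ≤ P ^ 4 * E := mul_le_mul_of_nonneg_right (pow_le hP (by norm_num)) hE0.le
  · have c1 : C / 2 ^ L ≤ P * (1 / 2 ^ m) := by
      have e1 : C / 2 ^ L = C * (1 / 2 ^ L) := by ring
      rw [e1]
      exact mul_le_mul h.CP a4 (by positivity) hP0.le
    calc 4 * 2 ^ q * (C / 2 ^ L) ≤ 4 * P * (P * (1 / 2 ^ m)) :=
        mul_le_mul (by linarith) c1 (by positivity) (by positivity)
      _ = 4 * P ^ 2 / 2 ^ m := by ring
      _ ≤ P ^ 3 / 2 ^ m :=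
        div_le_div_of_nonneg_right (mul_pow_le hP (by norm_num)) pm0.le
      _ ≤ P ^ 4 / 2 ^ m := div_le_div_of_nonneg_right (pow_le hP (by norm_num)) pm0.le
  · have c1 : (2 : ℝ) / 2 ^ lam ≤ 2 * (P / 2 ^ m) := by
      have e1 : (2 : ℝ) / 2 ^ lam = 2 * (1 / 2 ^ lam) := by ring
      rw [e1]
      linarith
    calc 4 * 2 ^ q * (2 / 2 ^ lam) ≤ 4 * P * (2 * (P / 2 ^ m)) :=
        mul_le_mul (by linarith) c1 (by positivity) (by positivity)
      _ = 8 * P ^ 2 / 2 ^ m := by ring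
      _ ≤ P ^ 3 / 2 ^ m :=
        div_le_div_of_nonneg_right (mul_pow_le hP (by norm_num)) pm0.le
      _ ≤ P ^ 4 / 2 ^ m := div_le_div_of_nonneg_right (pow_le hP (by norm_num)) pm0.le
  · have c1 : C * (2 ^ v₀ / 2 ^ T₀) + 2 * (2 ^ w / 2 ^ N) ≤ 2 * P ^ 2 * E := by
      have : 2 * E ≤ P ^ 2 * E := by
        refine mul_le_mul_of_nonneg_right ?_ hE0.le
        nlinarith
      have e1 : P * (P * E) = P ^ 2 * E := by ring
      rw [e1] at b1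
      linarith
    have c2 : (800 : ℝ) * 2 ^ q * 2 ^ l ≤ 800 * P * (2 ^ m * P) :=
      mul_le_mul (by linarith) a2 l0.le (by positivity)
    calc 800 * 2 ^ q * 2 ^ l * (C * (2 ^ v₀ / 2 ^ T₀) + 2 * (2 ^ w / 2 ^ N)) ≤
        800 * P * (2 ^ m * P) * (2 * P ^ 2 * E) := mul_le_mul c2 c1 (by positivity) (by positivity)
      _ = 1600 * P ^ 4 * (2 ^ m * E) := by ring
      _ ≤ P ^ 5 * (2 ^ m * E) :=
        mul_le_mul_of_nonneg_right (mul_pow_le hP (by norm_num)) (by positivity)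
      _ ≤ P ^ 6 * (2 ^ m * E) :=
        mul_le_mul_of_nonneg_right (pow_le hP (by norm_num)) (by positivity)
      _ = P ^ 6 * 2 ^ m * E := by ring

end num

/-- The position in the plank. -/
theorem posb_same {F : Fam 3 J} {ς : Fin 3 → Fin 3} {w lam N : ℕ} {y : Pln} {ω : F.Ω}
    (h : Inc (ς 0) (ς 1) (ς 2) w lam N 2 y (F.t ω) (F.x ω) (F.d ω)) :
    PosB F ς w lam N y y.e (-y.s) (-y.c) ω := by
  have c1 : ∀ n : ℕ, (2 : ℝ) / 2 ^ n ≤ 12 / 2 ^ n := fun n =>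
    div_le_div_of_nonneg_right (by norm_num) (by positivity)
  refine ⟨h.pe, ?_, ?_⟩
  · have a1 := h.pu
    have e1 : dx F y (ς 1) ω - y.e * dx F y (ς 0) ω = fu (ς 0) (ς 1) y.e (F.x ω) -
        fu (ς 0) (ς 1) y.e (fun i => y.xb i + F.t ω * y.db i) := by
      unfold dx fu
      ring
    rw [e1]
    exact a1.trans (c1 _)
  · have a1 := h.pn
    have e1 : dx F y (ς 2) ω - -y.s * dx F y (ς 1) ω - -y.c * dx F y (ς 0) ω =
        fn (ς 0) (ς 1) (ς 2) y.c y.s (F.x ω) -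
        fn (ς 0) (ς 1) (ς 2) y.c y.s (fun i => y.xb i + F.t ω * y.db i) := by
      unfold dx fn
      ring
    rw [e1]
    exact a1.trans (c1 _)

theorem posb_swap {F : Fam 3 J} {ς : Fin 3 → Fin 3} {w lam N : ℕ} {y : Pln} {ω : F.Ω}
    (h : Inc (ς 0) (ς 2) (ς 1) w lam N 2 y (F.t ω) (F.x ω) (F.d ω)) (hN : w + lam ≤ N)
    (hs : 3 / 16 ≤ |y.s|) :
    PosB F ς w lam N y (-(y.c + y.s * y.e)) (-(1 / y.s)) (-(y.c / y.s)) ω := by
  have h1 : |dx F y (ς 2) ω - y.e * dx F y (ς 0) ω| ≤ 2 / 2 ^ (w + lam) := by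
    have a1 := h.pu
    have e1 : dx F y (ς 2) ω - y.e * dx F y (ς 0) ω = fu (ς 0) (ς 2) y.e (F.x ω) -
        fu (ς 0) (ς 2) y.e (fun i => y.xb i + F.t ω * y.db i) := by
      unfold dx fu
      ring
    rw [e1]
    exact a1
  have h2 : |y.c * dx F y (ς 0) ω + y.s * dx F y (ς 2) ω + dx F y (ς 1) ω| ≤ 2 / 2 ^ N := by
    have a1 := h.pn
    have e1 : y.c * dx F y (ς 0) ω + y.s * dx F y (ς 2) ω + dx F y (ς 1) ω =
        fn (ς 0) (ς 2) (ς 1) y.c y.s (F.x ω) -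
        fn (ς 0) (ς 2) (ς 1) y.c y.s (fun i => y.xb i + F.t ω * y.db i) := by
      unfold dx fn
      ring
    rw [e1]
    exact a1
  have h3 : (2 : ℝ) / 2 ^ N ≤ 2 / 2 ^ (w + lam) :=
    div_le_div_of_nonneg_left (by norm_num) (by positivity)
      (pow_le_pow_right₀ (by norm_num) hN)
  obtain ⟨k1, k2⟩ := pos_swap h.s_le hs h1 h2 h3
  refine ⟨h.pe, k1.trans ?_, k2.trans ?_⟩
  · have e1 : 5 * ((2 : ℝ) / 2 ^ (w + lam)) = 10 / 2 ^ (w + lam) := by ring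
    rw [e1]
    exact div_le_div_of_nonneg_right (by norm_num) (by positivity)
  · have e1 : 16 / 3 * ((2 : ℝ) / 2 ^ N) = (32 / 3) / 2 ^ N := by ring
    rw [e1]
    exact div_le_div_of_nonneg_right (by norm_num) (by positivity)

end Pool.S6C.Nst
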