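import Pool.Agent.H16.S6.Start

/-!
# (NSTART), one family
-/

set_option autoImplicit false

namespace Pool.S6C.Nst

open Finset Real
open Pool.Agent.H49.Ent Pool.Agent.H32.Dense Pool.STK Pool.KA Pool.KSAT Pool.K2S Pool.PB Pool.KS6
open Pool.S6C.Uvc Pool.S6U Pool.S6V

variable {J : ℕ}

/-- Rounding. -/
theorem rdn (m : ℕ) (x : ℝ) : |x - ((⌊(2 : ℝ) ^ m * x⌋ : ℤ) : ℝ) / 2 ^ m| ≤ 1 / 2 ^ m := by
  have h0 : (0 : ℝ) < 2 ^ m := by positivity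
  have h1 := Int.floor_le ((2 : ℝ) ^ m * x)
  have h2 := Int.lt_floor_add_one ((2 : ℝ) ^ m * x)
  have e1 : x - ((⌊(2 : ℝ) ^ m * x⌋ : ℤ) : ℝ) / 2 ^ m = (2 ^ m * x - ⌊(2 : ℝ) ^ m * x⌋) / 2 ^ m := by
    field_simp
  rw [e1, abs_div, abs_of_pos h0]
  refine div_le_div_of_nonneg_right ?_ h0.le
  rw [abs_of_nonneg (by linarith)]
  linarith

/-- The labels and the own slope of one family. -/
structure LbD (F : Fam 3 J) (A : F.Ω → Prop) (ς : Fin 3 → Fin 3) (iu' iN' : Fin 3)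
    (w lam N v₀ lk T₀ L : ℕ) (C : ℝ) {Λ : Type} (κ : F.Ω → Λ) (pl : Λ → Pln) (al : F.Ω → ℝ)
    (nu : (Fin 3 → ℤ) × (ℕ × F.ζ) → ℝ) (z : F.Ω → Pln) : Prop where
  inj : Function.Injective ς
  hi : ∀ j : Fin 3, j = ς 0 ∨ j = iu' ∨ j = iN'
  ik : ∀ ω, A ω → Inc (ς 0) (ς 1) (ς 2) v₀ lk T₀ C (pl (κ ω)) (F.t ω) (F.x ω) (F.d ω)
  pk : ∀ ω ω', A ω → A ω' → Fam.pt F ω = Fam.pt F ω' → κ ω = κ ω'
  sk : ∀ ω ω', A ω → A ω' → slam F w ω = slam F w ω' → κ ω = κ ω'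
  pa : ∀ ω ω', A ω → A ω' → Fam.pt F ω = Fam.pt F ω' → al ω = al ω'
  ba : ∀ ω, A ω → |al ω| ≤ C
  on : ∀ ω, A ω → |F.d ω (ς 1) - al ω * F.d ω (ς 0) - nu (Fam.pt F ω)| ≤ C / 2 ^ L
  iz : ∀ ω, A ω → Inc (ς 0) iu' iN' w lam N 2 (z ω) (F.t ω) (F.x ω) (F.d ω)
  pz : ∀ ω ω', A ω → A ω' → Fam.pt F ω = Fam.pt F ω' → z ω = z ω'
  sz : ∀ ω ω', A ω → A ω' → slam F w ω = slam F w ω' → z ω = z ω'

section one

variable {F : Fam 3 J} {A G : F.Ω → Prop} {ς : Fin 3 → Fin 3} {iu' iN' : Fin 3}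
  {w m lam Q N M v₀ T₀ q l L lk : ℕ} {C P : ℝ} {Λ : Type} {κ : F.Ω → Λ} {pl : Λ → Pln}
  {al : F.Ω → ℝ} {nu : (Fin 3 → ℤ) × (ℕ × F.ζ) → ℝ} {z : F.Ω → Pln}

theorem LbD.vk (h : LbD F A ς iu' iN' w lam N v₀ lk T₀ L C κ pl al nu z) :
    VP F A (ς 0) (ς 1) (ς 2) w (C * (2 ^ v₀ / 2 ^ T₀)) (fun ω => (pl (κ ω)).c)
      (fun ω => (pl (κ ω)).s) :=
  vp_of (y := fun ω => pl (κ ω)) (surj3 h.inj) h.ik
    (fun ω ω' a b e => by rw [h.pk ω ω' a b e]) fun ω ω' a b e => by rw [h.sk ω ω' a b e]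

theorem LbD.vz (h : LbD F A ς iu' iN' w lam N v₀ lk T₀ L C κ pl al nu z) :
    VP F A (ς 0) iu' iN' w (2 * (2 ^ w / 2 ^ N)) (fun ω => (z ω).c) (fun ω => (z ω).s) :=
  vp_of (y := z) h.hi h.iz h.pz h.sz

/-- The good samples. -/
def GG (F : Fam 3 J) (A : F.Ω → Prop) (ς : Fin 3 → Fin 3) (iu' iN' : Fin 3)
    (w N v₀ T₀ q l : ℕ) (C : ℝ) {Λ : Type} (κ : F.Ω → Λ) (pl : Λ → Pln) (z : F.Ω → Pln)
    (ω : F.Ω) : Prop :=
  Spd F (ς 0) q A ω ∧ Clo (ς 1) (ς 2) iu' iN' (800 * 2 ^ q * 2 ^ l *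
    (C * (2 ^ v₀ / 2 ^ T₀) + 2 * (2 ^ w / 2 ^ N))) ((pl (κ ω)).s) ((z ω).s)

/-- The relations at one sample. -/
theorem LbD.rel (h : LbD F A ς iu' iN' w lam N v₀ lk T₀ L C κ pl al nu z)
    {ω : F.Ω} (hs : Spd F (ς 0) q A ω) : ∃ au au' aN' aN : ℝ,
      (iu' = ς 1 → au' = au) ∧ (iN' = ς 2 → aN' = aN) ∧ (iu' = ς 2 → au' = aN) ∧
      (iN' = ς 1 → aN' = au) ∧
      |(pl (κ ω)).c + (pl (κ ω)).s * au + aN| ≤ 4 * 2 ^ q * (C * (2 ^ v₀ / 2 ^ T₀)) ∧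
      |(z ω).c + (z ω).s * au' + aN'| ≤ 4 * 2 ^ q * (2 * (2 ^ w / 2 ^ N)) ∧
      |al ω - au| ≤ 4 * 2 ^ q * (C / 2 ^ L) ∧ |(z ω).e - au'| ≤ 4 * 2 ^ q * (2 / 2 ^ lam) := by
  obtain ⟨A0, ωa, ωb, ha, hb, pa, pb, hab⟩ := hs
  refine ⟨dq F (ς 0) (ς 1) ωa ωb, dq F (ς 0) iu' ωa ωb, dq F (ς 0) iN' ωa ωb,
    dq F (ς 0) (ς 2) ωa ωb, fun e => by rw [e], fun e => by rw [e], fun e => by rw [e],
    fun e => by rw [e], h.vk.pair A0 ha hb pa pb hab, h.vz.pair A0 ha hb pa pb hab, ?_, ?_⟩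
  · have b1 := h.on ωa ha
    have b2 := h.on ωb hb
    rw [h.pa ωa ω ha A0 pa, pa] at b1
    rw [h.pa ωb ω hb A0 pb, pb] at b2
    rw [abs_sub_comm]
    exact pair_slope b1 b2 hab
  · have i1 := h.iz ωa ha
    have i2 := h.iz ωb hb
    rw [h.pz ωa ω ha A0 pa] at i1
    rw [h.pz ωb ω hb A0 pb] at i2
    have b1 : |F.d ωa iu' - (z ω).e * F.d ωa (ς 0) - fu (ς 0) iu' (z ω).e (z ω).db| ≤
        2 / 2 ^ lam := i1.vu
    have b2 : |F.d ωb iu' - (z ω).e * F.d ωb (ς 0) - fu (ς 0) iu' (z ω).e (z ω).db| ≤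
        2 / 2 ^ lam := i2.vu
    rw [abs_sub_comm]
    exact pair_slope b1 b2 hab

/-- **One family**: the deficit on the good samples. -/
theorem one_fam (hn : Num w m lam Q N M v₀ T₀ q l L C P)
    (h : LbD F A ς iu' iN' w lam N v₀ lk T₀ L C κ pl al nu z)
    (hG : G = GG F A ς iu' iN' w N v₀ T₀ q l C κ pl z) (hG0 : 0 < Pe F.p G) :
    F.vdf (Pool.Agent.H49.Ent.cond F.p G True) ς (w + Q) (w + m + Q) N (ald m al)
        (fun ω => -(pl (κ ω)).s) (fun ω => -(pl (κ ω)).c)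
        (fun ω => (Uni.dg m al ω, (κ ω, F.W ω))) ≤
      (((N : ℝ) - w) + ((N : ℝ) - ((w + m : ℕ) : ℝ))) * Real.log 2 -
        CH (Pool.Agent.H49.Ent.cond F.p G True) (F.X N) (fun ω => ((κ ω, z ω), F.W ω)) +
        110 * M * Real.log 2 := by
  have hl := isLaw_cond F.isLaw hG0
  have hsup : ∀ ω, 0 < Pool.Agent.H49.Ent.cond F.p G True ω → G ω := by
    intro ω hω
    have := ((cond_pos_iff F.isLaw.nonneg G True ω).1 hω).2
    simpa using this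
  have hGA : ∀ ω, G ω → A ω := by
    intro ω hω
    rw [hG] at hω
    exact hω.1.1
  have hP := hn.P8
  have hP0 : 0 < P := by linarith
  obtain ⟨E, hE⟩ : ∃ E : ℝ, E = 2 ^ w * 2 ^ Q / 2 ^ N := ⟨_, rfl⟩
  obtain ⟨n1, n2, n3, n4, n5⟩ := hn.bds hE
  have hE0 : 0 < E := by rw [hE]; exact hn.E0
  have hμ : (1 : ℝ) ≤ 2 ^ m := one_le_pow₀ (by norm_num)
  have hroom := hn.hroom
  rw [← hE] at hroom
  have hN : w + m + Q ≤ N := by have := hn.room; omega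
  have hal : ∀ ω, 0 < Pool.Agent.H49.Ent.cond F.p G True ω → |al ω| ≤ P := fun ω hω =>
    (h.ba ω (hGA ω (hsup ω hω))).trans hn.CP
  have had : ∀ ω, ald m al ω = (Uni.dg m al ω : ℝ) / 2 ^ m := fun ω => rfl
  have hda : ∀ ω, |al ω - ald m al ω| ≤ 1 / 2 ^ m := fun ω => rdn m (al ω)
  have h12 : ς 1 ≠ ς 2 := fun e => by
    have := h.inj e
    exact absurd this (by decide)
  rcases Pool.S6F.ord_cases (surj3 h.inj) h.hi with ⟨u1, u2⟩ | ⟨u1, u2⟩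
  · refine core hl hP hn.PM hN hn.mlam κ pl al (ald m al) (Uni.dg m al) had hda z
      (fun y => y.e) (fun y => -y.s) (fun y => -y.c) hal ?_ ?_
    · intro ω hω
      have g := hsup ω hω
      rw [hG] at g
      have hA := g.1.1
      obtain ⟨au, au', aN', aN, e1, e2, -, -, r1, r2, r3, r4⟩ := h.rel g.1
      rw [e1 u1, e2 u2] at r2
      rw [e1 u1] at r4
      have g2 : |(z ω).s - (pl (κ ω)).s| ≤ 800 * 2 ^ q * 2 ^ l *
          (C * (2 ^ v₀ / 2 ^ T₀) + 2 * (2 ^ w / 2 ^ N)) := by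
        rcases g.2 with ⟨-, -, k⟩ | ⟨k1, -, -⟩
        · exact k
        · exact absurd (u1.symm.trans k1) h12
      rw [← hE]
      exact near_same hP hμ hE0 (h.iz ω hA).c_le (h.iz ω hA).s_le (r1.trans n1) (r2.trans n2)
        (r3.trans n3) (r4.trans n4) (g2.trans n5)
    · intro ω hω
      have hA := hGA ω (hsup ω hω)
      have i1 := h.iz ω hA
      rw [u1, u2] at i1
      exact posb_same i1
  · refine core hl hP hn.PM hN hn.mlam κ pl al (ald m al) (Uni.dg m al) had hda z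
      (fun y => -(y.c + y.s * y.e)) (fun y => -(1 / y.s)) (fun y => -(y.c / y.s)) hal ?_ ?_
    · intro ω hω
      have g := hsup ω hω
      rw [hG] at g
      have hA := g.1.1
      obtain ⟨au, au', aN', aN, -, -, e1, e2, r1, r2, r3, r4⟩ := h.rel g.1
      rw [e1 u1, e2 u2] at r2
      rw [e1 u1] at r4
      have g2 : |1 - (z ω).s * (pl (κ ω)).s| ≤ 800 * 2 ^ q * 2 ^ l *
          (C * (2 ^ v₀ / 2 ^ T₀) + 2 * (2 ^ w / 2 ^ N)) := by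
        rcases g.2 with ⟨k1, -, -⟩ | ⟨-, -, k⟩
        · exact absurd (k1.symm.trans u1) h12
        · exact k
      rw [← hE]
      exact (near_swap hP hμ hE0 hroom (h.ik ω hA).s_le (h.iz ω hA).c_le (h.iz ω hA).s_le
        (r1.trans n1) (r2.trans n2) (r3.trans n3) (r4.trans n4) (g2.trans n5)).2
    · intro ω hω
      have g := hsup ω hω
      rw [hG] at g
      have hA := g.1.1
      obtain ⟨au, au', aN', aN, -, -, e1, e2, r1, r2, r3, r4⟩ := h.rel g.1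
      rw [e1 u1, e2 u2] at r2
      rw [e1 u1] at r4
      have g2 : |1 - (z ω).s * (pl (κ ω)).s| ≤ 800 * 2 ^ q * 2 ^ l *
          (C * (2 ^ v₀ / 2 ^ T₀) + 2 * (2 ^ w / 2 ^ N)) := by
        rcases g.2 with ⟨k1, -, -⟩ | ⟨-, -, k⟩
        · exact absurd (k1.symm.trans u1) h12
        · exact k
      have s1 := (near_swap hP hμ hE0 hroom (h.ik ω hA).s_le (h.iz ω hA).c_le (h.iz ω hA).s_le
        (r1.trans n1) (r2.trans n2) (r3.trans n3) (r4.trans n4) (g2.trans n5)).1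
      have i1 := h.iz ω hA
      rw [u1, u2] at i1
      exact posb_swap i1 hn.wlam s1

end one

end Pool.S6C.Nst
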