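import Pool.Agent.H16.S6.StartB

/-!
# (NSTART), the class
-/

set_option autoImplicit false

namespace Pool.S6C.Nst

open Finset Real
open Pool.Agent.H49.Ent Pool.Agent.H32.Dense Pool.STK Pool.KA Pool.KSAT Pool.K2S Pool.PB Pool.KS6
open Pool.S6C.Uvc Pool.S6U Pool.S6V

variable {J : ℕ}

/-- The deficit on an event and on a large part of it. -/
theorem vdf_big {F : Fam 3 J} {A G : F.Ω → Prop} {ϖ : ℝ} (hGA : Sub G A) (hϖ : 0 ≤ ϖ)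
    (hA : 0 < Pe F.p A) (hG0 : 0 < Pe F.p G) (hG : (1 - ϖ) * Pe F.p A ≤ Pe F.p G)
    {ς : Fin 3 → Fin 3} (hς : Function.Bijective ς) {r U N : ℕ} {B : ℝ} (hB : 1 ≤ B)
    (hr : r ≤ N) (hU : U ≤ N) {a s t : F.Ω → ℝ}
    (hb : ∀ ω, G ω → |a ω| ≤ B ∧ |s ω| ≤ B ∧ |t ω| ≤ B) {τ : Type} (Θ : F.Ω → τ) :
    F.vdf (Pool.Agent.H49.Ent.cond F.p A True) ς r U N a s t Θ ≤
      F.vdf (Pool.Agent.H49.Ent.cond F.p G True) ς r U N a s t Θ +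
        ϖ * ((((N : ℝ) - r) + ((N : ℝ) - U)) * Real.log 2 + Vd.K2 B) := by
  have hlG := isLaw_cond F.isLaw hG0
  have k1 := CH_event F.isLaw hGA hA (F.X N) (fun ω => (F.sbx ς r U N a s t ω, Θ ω))
  have k2 := Vd.CH_X_le (σ := ς) (a := a) (s := s) (t := t) hlG hς hB hr hU (by
    intro ω hω
    have := ((cond_pos_iff F.isLaw.nonneg G True ω).1 hω).2
    exact hb ω (by simpa using this)) Θ
  have k3 := CH_nonneg hlG.nonneg (F.X N) (fun ω => (F.sbx ς r U N a s t ω, Θ ω))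
  obtain ⟨cG, hcG⟩ : ∃ cG, cG = CH (Pool.Agent.H49.Ent.cond F.p G True) (F.X N)
      (fun ω => (F.sbx ς r U N a s t ω, Θ ω)) := ⟨_, rfl⟩
  unfold Fam.vdf
  rw [← hcG] at k1 k2 k3 ⊢
  have k4 : (1 - ϖ) * cG ≤ Pe F.p G / Pe F.p A * cG := by
    refine mul_le_mul_of_nonneg_right ?_ k3
    rw [le_div_iff₀ hA]
    exact hG
  have k5 : ϖ * cG ≤ ϖ * ((((N : ℝ) - r) + ((N : ℝ) - U)) * Real.log 2 + Vd.K2 B) :=
    mul_le_mul_of_nonneg_left k2 hϖ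
  linarith only [k1, k4, k5]

section one

variable {F : Fam 3 J} {A G : F.Ω → Prop} {ς : Fin 3 → Fin 3} {iu' iN' : Fin 3}
  {w m lam Q N M v₀ T₀ q l L lk : ℕ} {C P : ℝ} {Λ : Type} {κ : F.Ω → Λ} {pl : Λ → Pln}
  {al : F.Ω → ℝ} {nu : (Fin 3 → ℤ) × (ℕ × F.ζ) → ℝ} {z : F.Ω → Pln}

/-- **One family.** -/
theorem one_big (hn : Num w m lam Q N M v₀ T₀ q l L C P)
    (h : LbD F A ς iu' iN' w lam N v₀ lk T₀ L C κ pl al nu z)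
    (hG : G = GG F A ς iu' iN' w N v₀ T₀ q l C κ pl z) {ϖ u : ℝ} (hϖ : 0 ≤ ϖ) (hϖ1 : ϖ ≤ 1 / 2)
    (hA : 0 < Pe F.p A) (hGb : (1 - ϖ) * Pe F.p A ≤ Pe F.p G)
    (hu : u ≤ CH (Pool.Agent.H49.Ent.cond F.p G True) (F.X N)
      (fun ω => ((κ ω, z ω), F.W ω))) :
    F.vdf (Pool.Agent.H49.Ent.cond F.p A True) ς (w + Q) (w + m + Q) N (ald m al)
        (fun ω => -(pl (κ ω)).s) (fun ω => -(pl (κ ω)).c)
        (fun ω => (Uni.dg m al ω, (κ ω, F.W ω))) ≤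
      (((N : ℝ) - w) + ((N : ℝ) - ((w + m : ℕ) : ℝ))) * Real.log 2 - u +
        110 * M * Real.log 2 + ϖ * (2 * N * Real.log 2 + Vd.K2 (C + 5)) := by
  have hG0 : 0 < Pe F.p G := by
    refine lt_of_lt_of_le ?_ hGb
    have : 0 < 1 - ϖ := by linarith only [hϖ1]
    positivity
  have hGA : Sub G A := by
    intro ω hω
    rw [hG] at hω
    exact hω.1.1
  have hC1 := hn.C1
  have hroom := hn.room
  have hbij : Function.Bijective ς := ⟨h.inj, Finite.injective_iff_surjective.1 h.inj⟩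
  have k1 := one_fam hn h hG hG0
  have k2 := vdf_big (F := F) (A := A) (G := G) hGA hϖ hA hG0 hGb hbij (r := w + Q)
    (U := w + m + Q) (N := N) (B := C + 5) (by linarith only [hC1]) (by omega) (by omega)
    (a := ald m al) (s := fun ω => -(pl (κ ω)).s) (t := fun ω => -(pl (κ ω)).c) (by
      intro ω hω
      have hAω := hGA ω hω
      have a1 := h.ba ω hAω
      have a2 := rdn m (al ω)
      have a3 : (1 : ℝ) / 2 ^ m ≤ 1 := by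
        rw [div_le_one (by positivity)]
        exact one_le_pow₀ (by norm_num)
      have i1 := h.ik ω hAω
      refine ⟨?_, ?_, ?_⟩
      · have e1 : ald m al ω = al ω - (al ω - ((⌊(2 : ℝ) ^ m * al ω⌋ : ℤ) : ℝ) / 2 ^ m) := by
          change ((⌊(2 : ℝ) ^ m * al ω⌋ : ℤ) : ℝ) / 2 ^ m = _
          ring
        rw [e1]
        refine (abs_sub _ _).trans ?_
        linarith only [a1, a2, a3]
      · rw [abs_neg]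
        have := i1.s_le
        linarith only [hC1, this]
      · rw [abs_neg]
        have := i1.c_le
        linarith only [hC1, this]) (fun ω => (Uni.dg m al ω, (κ ω, F.W ω)))
  have hlog2 : 0 < Real.log 2 := Real.log_pos one_lt_two
  have k3 : ϖ * ((((N : ℝ) - ((w + Q : ℕ) : ℝ)) + ((N : ℝ) - ((w + m + Q : ℕ) : ℝ))) *
      Real.log 2 + Vd.K2 (C + 5)) ≤ ϖ * (2 * N * Real.log 2 + Vd.K2 (C + 5)) := by
    refine mul_le_mul_of_nonneg_left ?_ hϖ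
    have e1 : (((N : ℝ) - ((w + Q : ℕ) : ℝ)) + ((N : ℝ) - ((w + m + Q : ℕ) : ℝ))) *
        Real.log 2 ≤ 2 * N * Real.log 2 := by
      refine mul_le_mul_of_nonneg_right ?_ hlog2.le
      have b1 : (0 : ℝ) ≤ ((w + Q : ℕ) : ℝ) := Nat.cast_nonneg _
      have b2 : (0 : ℝ) ≤ ((w + m + Q : ℕ) : ℝ) := Nat.cast_nonneg _
      linarith only
    linarith only [e1]
  linarith only [hu, k1, k2, k3]

end one

/-- The constants. -/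
structure Cst (h h₁ ρ₀ gp x₁ rt pi q p v T μ x h₂ : ℝ) : Prop where
  h0 : 0 < h
  h10 : 0 < h₁
  v0 : 0 ≤ v
  vx : v ≤ x₁
  rt0 : 0 ≤ rt
  q0 : 0 ≤ q
  p1 : p ≤ 1
  T0 : 0 ≤ T
  pT : p ≤ T + q
  rp : x₁ + rt + q + ρ₀ ≤ p
  gpp : rt + gp ≤ pi
  gp0 : 0 < gp
  ρ0 : 0 < ρ₀
  μ0 : 0 < μ
  μh : μ ≤ h / 1000
  μρ : μ ≤ ρ₀ / 50
  x0 : 0 < x
  xμ : x ≤ μ / 2
  xh : x ≤ h₁ / 4
  xg : x ≤ gp / 8
  x4 : x ≤ 1 / 4
  h20 : 0 < h₂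
  h2μ : h₂ ≤ μ / 4
  h2g : h₂ ≤ gp / 8

/-- `J` is large. -/
structure Lrg (h h₁ ρ₀ gp μ C : ℝ) (J : ℕ) : Prop where
  Jμ : C + 13 ≤ μ * J
  Jh₁ : 4 ≤ h₁ * J
  Jg : 12 ≤ gp * J
  Jρ : 50 ≤ ρ₀ * J
  J2 : (2 : ℝ) ≤ J
  Jh : 113 + Vd.K2 (C + 5) ≤ h / 2 * J

theorem lrg_ev {h h₁ ρ₀ gp μ C : ℝ} (hh : 0 < h) (hh₁ : 0 < h₁) (hρ : 0 < ρ₀) (hg : 0 < gp)
    (hμ : 0 < μ) (hC : 1 ≤ C) : ∃ J₀ : ℕ, ∀ J : ℕ, J₀ ≤ J → Lrg h h₁ ρ₀ gp μ C J := by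
  have hK : 0 ≤ Vd.K2 (C + 5) := Vd.K2_nonneg (by linarith only [hC])
  have p1 : 0 < (C + 13) / μ := by positivity
  have p2 : 0 < 4 / h₁ := by positivity
  have p3 : 0 < 12 / gp := by positivity
  have p4 : 0 < 50 / ρ₀ := by positivity
  have p5 : 0 < (113 + Vd.K2 (C + 5)) / (h / 2) := by positivity
  obtain ⟨J₀, hJ₀⟩ := exists_nat_gt ((C + 13) / μ + 4 / h₁ + 12 / gp + 50 / ρ₀ + 2 +
    (113 + Vd.K2 (C + 5)) / (h / 2))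
  refine ⟨J₀, fun J hJ => ?_⟩
  have hJ' : (C + 13) / μ + 4 / h₁ + 12 / gp + 50 / ρ₀ + 2 +
    (113 + Vd.K2 (C + 5)) / (h / 2) < J := hJ₀.trans_le (by exact_mod_cast hJ)
  refine ⟨?_, ?_, ?_, ?_, by linarith only [p1, p2, p3, p4, p5, hJ'], ?_⟩
  · have : (C + 13) / μ ≤ J := by linarith only [p2, p3, p4, p5, hJ']
    rwa [div_le_iff₀ hμ, mul_comm] at this
  · have : 4 / h₁ ≤ J := by linarith only [p1, p3, p4, p5, hJ']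
    rwa [div_le_iff₀ hh₁, mul_comm] at this
  · have : 12 / gp ≤ J := by linarith only [p1, p2, p4, p5, hJ']
    rwa [div_le_iff₀ hg, mul_comm] at this
  · have : 50 / ρ₀ ≤ J := by linarith only [p1, p2, p3, p5, hJ']
    rwa [div_le_iff₀ hρ, mul_comm] at this
  · have : (113 + Vd.K2 (C + 5)) / (h / 2) ≤ J := by linarith only [p1, p2, p3, p4, hJ']
    rwa [div_le_iff₀ (half_pos hh), mul_comm] at this

section cst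

variable {h h₁ ρ₀ gp x₁ rt pi q p v T μ x h₂ k k' C : ℝ}

theorem floor_le_r {rt k : ℝ} (hr : 0 ≤ rt) (hk : 0 ≤ k) (J : ℕ) :
    (⌊(rt - k) * J⌋₊ : ℝ) ≤ rt * J := by
  have hJ : (0 : ℝ) ≤ J := Nat.cast_nonneg J
  rcases le_total 0 ((rt - k) * J) with h | h
  · refine (Nat.floor_le h).trans ?_
    nlinarith only [hk]
  · rw [Nat.floor_of_nonpos h]
    simp only [Nat.cast_zero]
    positivity

/-- The integers. -/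
theorem num_mk (hc : Cst h h₁ ρ₀ gp x₁ rt pi q p v T μ x h₂) (hl : Lrg h h₁ ρ₀ gp μ C J)
    (hC : 1 ≤ C) (hk : 0 < k) (hkμ : k ≤ μ / 4) (hk' : 0 < k') (hkμ' : k' ≤ μ / 2) :
    Num ⌊x₁ * J⌋₊ ⌊(rt - k) * J⌋₊ ⌊(rt - k') * J⌋₊ ⌊q * J⌋₊ ⌊p * J⌋₊ ⌈μ * J⌉₊ ⌊v * J⌋₊
      ⌊T * J⌋₊ ⌈x * J⌉₊ ⌊(rt + h₂) * J⌋₊ ⌊(pi - k) * J⌋₊ C (2 ^ ⌈μ * J⌉₊) := by
  obtain ⟨M, hM⟩ : ∃ M, M = ⌈μ * (J : ℝ)⌉₊ := ⟨_, rfl⟩
  have hJ0 : (0 : ℝ) ≤ J := Nat.cast_nonneg J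
  have hJ1 : (0 : ℝ) < J := by have := hl.J2; linarith only [this]
  have hM1 : μ * J ≤ M := by rw [hM]; exact Nat.le_ceil _
  have hM2 : (M : ℝ) < μ * J + 1 := by
    rw [hM]
    exact Nat.ceil_lt_add_one (mul_nonneg hc.μ0.le hJ0)
  have hM3 : (M : ℝ) < 2 ^ M := by exact_mod_cast Nat.lt_two_pow_self
  have e0 := hl.Jμ
  have m13 : 13 ≤ M := by
    have : (13 : ℝ) ≤ M := by linarith only [hC, hM1, e0]
    exact_mod_cast this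
  have x1 : 0 ≤ x₁ := hc.v0.trans hc.vx
  have mr := floor_le_r hc.rt0 hk.le J
  have lr' := floor_le_r hc.rt0 hk'.le J
  have mlow := Nat.lt_floor_add_one ((rt - k) * (J : ℝ))
  have llow := Nat.lt_floor_add_one ((rt - k') * (J : ℝ))
  have wup : (⌊x₁ * (J : ℝ)⌋₊ : ℝ) ≤ x₁ * J := Nat.floor_le (mul_nonneg x1 hJ0)
  have qup : (⌊q * (J : ℝ)⌋₊ : ℝ) ≤ q * J := Nat.floor_le (mul_nonneg hc.q0 hJ0)
  have qlow := Nat.lt_floor_add_one (q * (J : ℝ))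
  have Tlow := Nat.lt_floor_add_one (T * (J : ℝ))
  have Nlow := Nat.lt_floor_add_one (p * (J : ℝ))
  have hp0 : 0 ≤ p := by
    have := hc.rp
    have := hc.rt0
    have := hc.q0
    have := hc.ρ0
    linarith
  have Nup : (⌊p * (J : ℝ)⌋₊ : ℝ) ≤ p * J := Nat.floor_le (mul_nonneg hp0 hJ0)
  have kJ : k * J ≤ μ / 4 * J := mul_le_mul_of_nonneg_right hkμ hJ0
  have kJ' : k' * J ≤ μ / 2 * J := mul_le_mul_of_nonneg_right hkμ' hJ0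
  have hJ2 : h₂ * J ≤ μ / 4 * J := mul_le_mul_of_nonneg_right hc.h2μ hJ0
  have rp : (x₁ + rt + q + ρ₀) * J ≤ p * J := mul_le_mul_of_nonneg_right hc.rp hJ0
  have μρ : μ * J ≤ ρ₀ / 50 * J := mul_le_mul_of_nonneg_right hc.μρ hJ0
  have ρJ := hl.Jρ
  rw [← hM]
  refine ⟨?_, rfl, ?_, hC, ?_, ?_, ?_, ?_, ?_, ?_, ?_, ?_⟩
  · calc (8192 : ℝ) = 2 ^ 13 := by norm_num
      _ ≤ 2 ^ M := pow_le_pow_right₀ (by norm_num) m13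
  · linarith only [hM1, hM3, e0]
  · exact Nat.floor_le_floor (mul_le_mul_of_nonneg_right hc.vx hJ0)
  · rw [hM]
    refine Nat.ceil_le_ceil (mul_le_mul_of_nonneg_right ?_ hJ0)
    have := hc.xμ
    have := hc.μ0
    linarith
  · have l1 : (⌊(rt + h₂) * (J : ℝ)⌋₊ : ℝ) ≤ (rt + h₂) * J :=
      Nat.floor_le (mul_nonneg (add_nonneg hc.rt0 hc.h20.le) hJ0)
    have : (⌊(rt + h₂) * (J : ℝ)⌋₊ : ℝ) ≤ ((⌊(rt - k) * (J : ℝ)⌋₊ + M : ℕ) : ℝ) := by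
      push_cast
      nlinarith only [hC, hM1, e0, mlow, kJ, hJ2, l1]
    exact_mod_cast this
  · have : (⌊(rt - k) * (J : ℝ)⌋₊ : ℝ) ≤ ((⌊(rt - k') * (J : ℝ)⌋₊ + M : ℕ) : ℝ) := by
      push_cast
      nlinarith only [hC, hM1, e0, mr, llow, kJ']
    exact_mod_cast this
  · refine Nat.floor_le_floor (mul_le_mul_of_nonneg_right ?_ hJ0)
    have := hc.gpp
    have := hc.gp0
    linarith
  · have pT : p * J ≤ (T + q) * J := mul_le_mul_of_nonneg_right hc.pT hJ0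
    have m13' : (13 : ℝ) ≤ M := by exact_mod_cast m13
    have : (⌊p * (J : ℝ)⌋₊ : ℝ) ≤ ((⌊T * (J : ℝ)⌋₊ + ⌊q * (J : ℝ)⌋₊ + M : ℕ) : ℝ) := by
      push_cast
      nlinarith only [hC, hM1, e0, qlow, Tlow, Nup, pT]
    exact_mod_cast this
  · have : (((⌊x₁ * (J : ℝ)⌋₊ + ⌊(rt - k) * (J : ℝ)⌋₊ + ⌊q * (J : ℝ)⌋₊ + 20 * M : ℕ)) : ℝ) <
        ((⌊p * (J : ℝ)⌋₊ + 1 : ℕ) : ℝ) := by
      push_cast
      nlinarith only [hC, hM2, e0, mr, wup, qup, Nlow, rp, μρ]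
    have := Nat.cast_lt.1 this
    omega
  · have qJ : 0 ≤ q * J := mul_nonneg hc.q0 hJ0
    have : (((⌊x₁ * (J : ℝ)⌋₊ + ⌊(rt - k') * (J : ℝ)⌋₊ : ℕ)) : ℝ) <
        ((⌊p * (J : ℝ)⌋₊ + 1 : ℕ) : ℝ) := by
      push_cast
      nlinarith only [hC, e0, lr', wup, qup, Nlow, rp, μρ]
    have := Nat.cast_lt.1 this
    omega

/-- The conditions of the comparison. -/
theorem cmp_ok (hc : Cst h h₁ ρ₀ gp x₁ rt pi q p v T μ x h₂) (hl : Lrg h h₁ ρ₀ gp μ C J) :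
    ⌈x * J⌉₊ ≤ J ∧ x * J ≤ ⌈x * (J : ℝ)⌉₊ ∧ ⌈x * J⌉₊ + 2 ≤ ⌊h₁ * J⌋₊ ∧
      ⌊(rt + h₂) * J⌋₊ + ⌈x * J⌉₊ + 5 ≤ ⌊(pi - h₂) * J⌋₊ := by
  have hJ0 : (0 : ℝ) ≤ J := Nat.cast_nonneg J
  have q1 : x * J ≤ ⌈x * (J : ℝ)⌉₊ := Nat.le_ceil _
  have q2 : (⌈x * (J : ℝ)⌉₊ : ℝ) < x * J + 1 :=
    Nat.ceil_lt_add_one (mul_nonneg hc.x0.le hJ0)
  have x4 : x * J ≤ 1 / 4 * J := mul_le_mul_of_nonneg_right hc.x4 hJ0
  have xh : x * J ≤ h₁ / 4 * J := mul_le_mul_of_nonneg_right hc.xh hJ0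
  have xg : x * J ≤ gp / 8 * J := mul_le_mul_of_nonneg_right hc.xg hJ0
  have hg : h₂ * J ≤ gp / 8 * J := mul_le_mul_of_nonneg_right hc.h2g hJ0
  have gpp : (rt + gp) * J ≤ pi * J := mul_le_mul_of_nonneg_right hc.gpp hJ0
  have J2 := hl.J2
  have Jh₁ := hl.Jh₁
  have Jg := hl.Jg
  refine ⟨?_, q1, ?_, ?_⟩
  · have : (⌈x * (J : ℝ)⌉₊ : ℝ) ≤ J := by linarith only [q2, x4, J2]
    exact_mod_cast this
  · refine Nat.le_floor ?_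
    push_cast
    linarith only [q2, xh, Jh₁]
  · refine Nat.le_floor ?_
    have l1 : (⌊(rt + h₂) * (J : ℝ)⌋₊ : ℝ) ≤ (rt + h₂) * J :=
      Nat.floor_le (mul_nonneg (add_nonneg hc.rt0 hc.h20.le) hJ0)
    push_cast
    linarith only [q2, xg, hg, gpp, Jg, l1]

/-- The last estimate. -/
theorem last (hc : Cst h h₁ ρ₀ gp x₁ rt pi q p v T μ x h₂) (hl : Lrg h h₁ ρ₀ gp μ C J)
    (hC : 1 ≤ C) (hk : 0 < k) (hkμ : k ≤ μ / 4) {ϖ : ℝ} (hϖ : 0 ≤ ϖ) (hϖ1 : ϖ ≤ 1 / 2)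
    (hϖh : ϖ ≤ h / 16) :
    (((⌊p * (J : ℝ)⌋₊ : ℝ) - ⌊x₁ * (J : ℝ)⌋₊) + ((⌊p * (J : ℝ)⌋₊ : ℝ) -
      ((⌊x₁ * (J : ℝ)⌋₊ + ⌊(rt - k) * (J : ℝ)⌋₊ : ℕ) : ℝ))) * Real.log 2 -
      (2 * p - 2 * x₁ - rt - μ / 2) * J * Real.log 2 +
        110 * (⌈μ * (J : ℝ)⌉₊ : ℝ) * Real.log 2 +
        ϖ * (2 * (⌊p * (J : ℝ)⌋₊ : ℝ) * Real.log 2 + Vd.K2 (C + 5)) ≤ h * J := by
  have hJ0 : (0 : ℝ) ≤ J := Nat.cast_nonneg J
  have hlog2 : 0 < Real.log 2 := Real.log_pos one_lt_two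
  have hlog1 : Real.log 2 ≤ 1 := by
    have := Real.log_two_lt_d9
    linarith only [hlog2, this]
  have x1 : 0 ≤ x₁ := hc.v0.trans hc.vx
  have hp0 : 0 ≤ p := by
    have := hc.rp
    have := hc.rt0
    have := hc.q0
    have := hc.ρ0
    linarith
  have Nup : (⌊p * (J : ℝ)⌋₊ : ℝ) ≤ p * J := Nat.floor_le (mul_nonneg hp0 hJ0)
  have NJ : (⌊p * (J : ℝ)⌋₊ : ℝ) ≤ J := by
    have : p * J ≤ 1 * J := mul_le_mul_of_nonneg_right hc.p1 hJ0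
    linarith only [Nup, this]
  have wlow := Nat.lt_floor_add_one (x₁ * (J : ℝ))
  have mlow := Nat.lt_floor_add_one ((rt - k) * (J : ℝ))
  have hM2 : (⌈μ * (J : ℝ)⌉₊ : ℝ) < μ * J + 1 :=
    Nat.ceil_lt_add_one (mul_nonneg hc.μ0.le hJ0)
  have hK : 0 ≤ Vd.K2 (C + 5) := Vd.K2_nonneg (by linarith only [hC])
  have s1 : (((⌊p * (J : ℝ)⌋₊ : ℝ) - ⌊x₁ * (J : ℝ)⌋₊) + ((⌊p * (J : ℝ)⌋₊ : ℝ) -
      ((⌊x₁ * (J : ℝ)⌋₊ + ⌊(rt - k) * (J : ℝ)⌋₊ : ℕ) : ℝ))) * Real.log 2 -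
      (2 * p - 2 * x₁ - rt - μ / 2) * J * Real.log 2 +
        110 * (⌈μ * (J : ℝ)⌉₊ : ℝ) * Real.log 2 ≤ ((k + μ / 2) * J + 3 + 110 * (μ * J + 1)) := by
    have e1 : (((⌊p * (J : ℝ)⌋₊ : ℝ) - ⌊x₁ * (J : ℝ)⌋₊) + ((⌊p * (J : ℝ)⌋₊ : ℝ) -
      ((⌊x₁ * (J : ℝ)⌋₊ + ⌊(rt - k) * (J : ℝ)⌋₊ : ℕ) : ℝ))) * Real.log 2 -
      (2 * p - 2 * x₁ - rt - μ / 2) * J * Real.log 2 +
        110 * (⌈μ * (J : ℝ)⌉₊ : ℝ) * Real.log 2 =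
        (((⌊p * (J : ℝ)⌋₊ : ℝ) - ⌊x₁ * (J : ℝ)⌋₊) + ((⌊p * (J : ℝ)⌋₊ : ℝ) -
      ((⌊x₁ * (J : ℝ)⌋₊ + ⌊(rt - k) * (J : ℝ)⌋₊ : ℕ) : ℝ)) -
      (2 * p - 2 * x₁ - rt - μ / 2) * J + 110 * (⌈μ * (J : ℝ)⌉₊ : ℝ)) * Real.log 2 := by ring
    rw [e1]
    have a1 : ((⌊p * (J : ℝ)⌋₊ : ℝ) - ⌊x₁ * (J : ℝ)⌋₊) + ((⌊p * (J : ℝ)⌋₊ : ℝ) -
      ((⌊x₁ * (J : ℝ)⌋₊ + ⌊(rt - k) * (J : ℝ)⌋₊ : ℕ) : ℝ)) -
      (2 * p - 2 * x₁ - rt - μ / 2) * J + 110 * (⌈μ * (J : ℝ)⌉₊ : ℝ) ≤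
        (k + μ / 2) * J + 3 + 110 * (μ * J + 1) := by
      push_cast
      linarith only [Nup, wlow, mlow, hM2]
    have a2 : 0 ≤ (k + μ / 2) * J + 3 + 110 * (μ * J + 1) := by
      have := hc.μ0
      positivity
    calc _ ≤ ((k + μ / 2) * J + 3 + 110 * (μ * J + 1)) * Real.log 2 :=
          mul_le_mul_of_nonneg_right a1 hlog2.le
      _ ≤ ((k + μ / 2) * J + 3 + 110 * (μ * J + 1)) * 1 := mul_le_mul_of_nonneg_left hlog1 a2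
      _ = _ := mul_one _
  have s2 : ϖ * (2 * (⌊p * (J : ℝ)⌋₊ : ℝ) * Real.log 2 + Vd.K2 (C + 5)) ≤
      h / 8 * J + Vd.K2 (C + 5) := by
    have a1 : 2 * (⌊p * (J : ℝ)⌋₊ : ℝ) * Real.log 2 ≤ 2 * J * 1 :=
      mul_le_mul (by linarith only [NJ]) hlog1 hlog2.le (by positivity)
    have a2 : ϖ * (2 * (⌊p * (J : ℝ)⌋₊ : ℝ) * Real.log 2) ≤ h / 16 * (2 * J * 1) :=
      mul_le_mul hϖh a1 (by positivity) (by have := hc.h0; positivity)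
    have a3 : ϖ * Vd.K2 (C + 5) ≤ 1 * Vd.K2 (C + 5) :=
      mul_le_mul_of_nonneg_right (by linarith only [hϖ1]) hK
    linarith only [a2, a3]
  have kJ : k * J ≤ μ / 4 * J := mul_le_mul_of_nonneg_right hkμ hJ0
  have μJ : μ * J ≤ h / 1000 * J := mul_le_mul_of_nonneg_right hc.μh hJ0
  have Jh := hl.Jh
  have hJh : 0 ≤ h * J := mul_nonneg hc.h0.le hJ0
  linarith only [hK, s1, s2, kJ, μJ, Jh]

end cst

end Pool.S6C.Nst
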